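import Pool.Agent.P.MP_c8ecb2_nt.H14.Core

set_option autoImplicit false

namespace Pool.Agent.P.MP_c8ecb2_nt.H14

open Finset Polynomial Filter

theorem exists_dat {β θ : ℝ} (hβ : Base β) {c : ℕ → ℤ} {A : ℕ} (h1 : 1 ≤ A)
    (dig : ∀ n, (c n).natAbs ≤ A) (app : ∀ T : ℕ, |θ - ps β c T| ≤ A * β ^ (T : ℤ))
    (hθ : Irrational θ) {P : ℤ[X]} (hP : P ≠ 0) (h0 : (P.map (algebraMap ℤ ℝ)).eval θ = 0) :
    ∃ T₁, Dat β θ c A (P.natDegree + 1) T₁ := by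
  obtain ⟨Λ, hΛ, h⟩ := Liouville.exists_pos_real_of_irrational_root hθ hP h0
  obtain ⟨T₁, hT₁⟩ := exists_nat_ge (A * Λ)
  refine ⟨T₁, hβ, h1, by omega, dig, app, fun T T' h2 h3 h4 => ?_⟩
  obtain ⟨k, hk⟩ := (ps_rep (β := β) dig (Nat.zero_le T) le_rfl).int hβ (e := T)
    fun z hz => (Wn_bd hz).2.le
  have hp := hβ.pos
  have a1 := hβ.lt (m := T₁) (e := 0) (T := T) (by omega)
  have a2 : β ^ (T' : ℤ) ≤ β ^ (((P.natDegree + 1) * T : ℕ) : ℤ) := hβ.anti (by omega)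
  obtain ⟨b, hb, hb'⟩ := hβ
  have hb0 : (0 : ℝ) < b := by positivity
  obtain ⟨s, hs⟩ : ∃ s : ℕ, b ^ T = s + 1 := ⟨b ^ T - 1, by
    have : 1 ≤ b ^ T := Nat.one_le_pow _ _ (by omega)
    omega⟩
  have a3 : (s : ℝ) + 1 = (b : ℝ) ^ T := by exact_mod_cast hs.symm
  have a4 := h k s
  have a5 : (k : ℝ) / (b : ℝ) ^ T = ps β c T' := by
    rw [h4, div_eq_mul_inv, ← inv_pow, ← hb', ← zpow_natCast, ← hk]
    simp [ps]
  have a6 : ((b : ℝ) ^ T) ^ P.natDegree * β ^ (((P.natDegree + 1) * T : ℕ) : ℤ) = β ^ (T : ℤ) := by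
    rw [zpow_natCast, zpow_natCast, hb', add_mul, one_mul, pow_add, mul_comm _ T, pow_mul,
      ← mul_assoc, ← mul_pow, ← mul_pow, mul_inv_cancel₀ hb0.ne']
    simp
  rw [a3, a5] at a4
  have a7 : ((b : ℝ) ^ T) ^ P.natDegree * (|θ - ps β c T'| * Λ) ≤ ((b : ℝ) ^ T) ^ P.natDegree *
      (A * β ^ (((P.natDegree + 1) * T : ℕ) : ℤ) * Λ) := by
    gcongr
    exact (app T').trans (mul_le_mul_of_nonneg_left a2 A.cast_nonneg)
  have a8 : A * Λ * β ^ (T : ℤ) ≤ T₁ * β ^ (T : ℤ) :=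
    mul_le_mul_of_nonneg_right hT₁ (zpow_pos hp _).le
  rw [zpow_zero] at a1
  have a9 : ((b : ℝ) ^ T) ^ P.natDegree * (A * β ^ (((P.natDegree + 1) * T : ℕ) : ℤ) * Λ) =
      A * Λ * β ^ (T : ℤ) := by rw [← a6]; ring
  linarith

theorem asymp (E : ℕ) : ∃ κ : ℝ, 0 < κ ∧ ∀ᶠ N : ℕ in atTop, ∃ a : ℕ, 2 ≤ a ∧ a ^ (E * a) ≤ N ∧
    κ * (Real.log N / Real.log (Real.log N)) ^ 2 ≤ a * a := by
  have hE : (0 : ℝ) < E + 1 := by positivity
  refine ⟨(1 / (2 * (E + 1))) ^ 2, by positivity, ?_⟩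
  have t1 : Tendsto (fun N : ℕ => Real.log N) atTop atTop :=
    Real.tendsto_log_atTop.comp tendsto_natCast_atTop_atTop
  have t2 := t1.eventually (Real.isLittleO_log_id_atTop.bound
    (show (0 : ℝ) < 1 / (2 * (E + 1)) by positivity))
  filter_upwards [t2, (Real.tendsto_log_atTop.comp t1).eventually_ge_atTop 1,
    t1.eventually_ge_atTop 1, eventually_ge_atTop 1] with N h1 h2 h3 h4
  simp only [Function.comp, id, Real.norm_eq_abs] at h1 h2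
  set l := Real.log N with hl
  set ll := Real.log l with hll
  rw [abs_of_pos (by linarith), abs_of_pos (by linarith), one_div_mul_eq_div,
    le_div_iff₀ (by positivity)] at h1
  have hx : 2 ≤ l / ((E + 1) * ll) := by
    rw [le_div_iff₀ (by positivity)]
    linarith
  have hx' : l / ((E + 1) * ll) ≤ l :=
    div_le_self (by linarith) (by nlinarith [Nat.cast_nonneg (α := ℝ) E])
  set a := ⌊l / ((E + 1) * ll)⌋₊ with ha
  have a1 : 2 ≤ a := Nat.le_floor (by exact_mod_cast hx)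
  have a1' : (2 : ℝ) ≤ a := by exact_mod_cast a1
  have a2 : (a : ℝ) ≤ l / ((E + 1) * ll) := Nat.floor_le (by linarith)
  have a3 : l / ((E + 1) * ll) < a + 1 := Nat.lt_floor_add_one _
  refine ⟨a, a1, ?_, ?_⟩
  · have b1 : Real.log a ≤ ll := Real.log_le_log (by linarith) (a2.trans hx')
    have b2 : (a : ℝ) * ((E + 1) * ll) ≤ l := by rwa [le_div_iff₀ (by positivity)] at a2
    have b3 : Real.log ((a : ℝ) ^ (E * a)) ≤ Real.log N := by
      rw [Real.log_pow]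
      push_cast
      have : (E : ℝ) * a * Real.log a ≤ E * a * ll := by gcongr
      nlinarith
    rw [Real.log_le_log_iff (by positivity) (by exact_mod_cast h4)] at b3
    exact_mod_cast b3
  · rw [← mul_pow, ← sq]
    refine pow_le_pow_left₀ (by positivity) ?_ 2
    have : 1 / (2 * ((E : ℝ) + 1)) * (l / ll) = l / ((E + 1) * ll) / 2 := by
      field_simp
    linarith

/-- A real number with bounded signed digits that is algebraic and irrational has at least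
`κ (log N / log log N) ^ 2` nonzero digits among the first `N`. -/
theorem sparse {β θ : ℝ} (hβ : Base β) {c : ℕ → ℤ} {A : ℕ} (h1 : 1 ≤ A)
    (dig : ∀ n, (c n).natAbs ≤ A) (app : ∀ T : ℕ, |θ - ps β c T| ≤ A * β ^ (T : ℤ))
    (hθ : Irrational θ) (ha : IsAlgebraic ℚ θ) : ∃ κ : ℝ, 0 < κ ∧ ∀ᶠ N : ℕ in atTop,
      κ * (Real.log N / Real.log (Real.log N)) ^ 2 + 1 ≤ (Wn c 0 N).card := by
  obtain ⟨P, hP, h0⟩ := (IsFractionRing.isAlgebraic_iff ℤ ℚ ℝ).2 ha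
  rw [aeval_def, eval₂_eq_eval_map] at h0
  obtain ⟨T₁, h⟩ := exists_dat hβ h1 dig app hθ hP h0
  obtain ⟨E, hE⟩ := core h hP h0
  obtain ⟨κ, hκ, h2⟩ := asymp E
  refine ⟨κ, hκ, ?_⟩
  filter_upwards [h2] with N ⟨a, a1, a2, a3⟩
  have : a * a + 1 ≤ (Wn c 0 N).card := (hE a a1).trans_le (card_le_card (Wn_mono le_rfl a2))
  have : ((a * a + 1 : ℕ) : ℝ) ≤ (Wn c 0 N).card := by exact_mod_cast this
  push_cast at this
  linarith

theorem floor_succ {b : ℕ} (hb : 2 ≤ b) (x : ℝ) (i : ℕ) :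
    ⌊x * (b : ℝ) ^ (i + 1)⌋ = b * ⌊x * (b : ℝ) ^ i⌋ + ⌊x * (b : ℝ) ^ (i + 1)⌋ % b := by
  have h0 : (b : ℝ) ≠ 0 := by positivity
  have h1 : ⌊x * (b : ℝ) ^ i⌋ = ⌊x * (b : ℝ) ^ (i + 1)⌋ / b := by
    rw [← Int.floor_div_natCast]
    congr 1
    field_simp
    ring
  rw [h1, Int.mul_ediv_add_emod]

/-- The signed digits of `(b ^ q - 1) x`. -/
noncomputable def dg (b q : ℕ) (x : ℝ) (i : ℕ) : ℤ :=
  if i = 0 then ⌊x * (b : ℝ) ^ q⌋ - ⌊x⌋ else ⌊x * (b : ℝ) ^ (i + q)⌋ % b - ⌊x * (b : ℝ) ^ i⌋ % b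

theorem dg_sum {b : ℕ} (hb : 2 ≤ b) (q : ℕ) (x : ℝ) (N : ℕ) :
    ps (b : ℝ)⁻¹ (dg b q x) (N + 1) =
      ((⌊x * (b : ℝ) ^ (N + q)⌋ - ⌊x * (b : ℝ) ^ N⌋ : ℤ) : ℝ) / (b : ℝ) ^ N := by
  have h0 : (b : ℝ) ≠ 0 := by positivity
  unfold ps
  induction N with
  | zero => simp [dg]
  | succ N ih =>
    rw [sum_range_succ, ih]
    have h1 := floor_succ hb x N
    have h2 := floor_succ hb x (N + q)
    rw [show N + q + 1 = N + 1 + q by ring] at h2
    have h3 : ⌊x * (b : ℝ) ^ (N + 1 + q)⌋ - ⌊x * (b : ℝ) ^ (N + 1)⌋ =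
        b * (⌊x * (b : ℝ) ^ (N + q)⌋ - ⌊x * (b : ℝ) ^ N⌋) + dg b q x (N + 1) := by
      unfold dg
      rw [if_neg (Nat.succ_ne_zero N)]
      linarith
    rw [h3, zpow_natCast, inv_pow]
    push_cast
    field_simp
    ring

theorem dg_app {b : ℕ} (hb : 2 ≤ b) (q : ℕ) (x : ℝ) (N : ℕ) :
    |((b : ℝ) ^ q - 1) * x - ps (b : ℝ)⁻¹ (dg b q x) (N + 1)| ≤ 1 / (b : ℝ) ^ N := by
  have h0 : (0 : ℝ) < (b : ℝ) ^ N := by positivity
  rw [dg_sum hb]
  have h1 : ((b : ℝ) ^ q - 1) * x -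
      ((⌊x * (b : ℝ) ^ (N + q)⌋ - ⌊x * (b : ℝ) ^ N⌋ : ℤ) : ℝ) / (b : ℝ) ^ N =
      (Int.fract (x * (b : ℝ) ^ (N + q)) - Int.fract (x * (b : ℝ) ^ N)) / (b : ℝ) ^ N := by
    unfold Int.fract
    push_cast
    field_simp
    ring
  rw [h1, abs_div, abs_of_pos h0]
  gcongr
  have := Int.fract_nonneg (x * (b : ℝ) ^ (N + q))
  have := Int.fract_lt_one (x * (b : ℝ) ^ (N + q))
  have := Int.fract_nonneg (x * (b : ℝ) ^ N)
  have := Int.fract_lt_one (x * (b : ℝ) ^ N)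
  rw [abs_le]
  constructor <;> linarith

theorem dg_le {b : ℕ} (hb : 2 ≤ b) (q : ℕ) (x : ℝ) (i : ℕ) :
    |dg b q x i| ≤ |dg b q x 0| + b := by
  by_cases hi : i = 0
  · rw [hi]
    linarith [Int.natCast_nonneg b]
  · have hb0 : (0 : ℤ) < b := by omega
    have h1 : |dg b q x i| ≤ b := by
      unfold dg
      rw [if_neg hi, abs_le]
      have := Int.emod_nonneg ⌊x * (b : ℝ) ^ (i + q)⌋ hb0.ne'
      have := Int.emod_lt_of_pos ⌊x * (b : ℝ) ^ (i + q)⌋ hb0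
      have := Int.emod_nonneg ⌊x * (b : ℝ) ^ i⌋ hb0.ne'
      have := Int.emod_lt_of_pos ⌊x * (b : ℝ) ^ i⌋ hb0
      constructor <;> linarith
    linarith [abs_nonneg (dg b q x 0)]

theorem clear_den {J : Type} [Finite J] (r : J → ℚ) :
    ∃ D : ℤ, D ≠ 0 ∧ ∃ z : J → ℤ, ∀ j, (D : ℝ) * (r j : ℝ) = z j := by
  obtain ⟨D, hD⟩ := IsLocalization.exist_integer_multiples_of_finite (nonZeroDivisors ℤ) r
  choose z hz using hD
  refine ⟨D, nonZeroDivisors.coe_ne_zero D, z, fun j => ?_⟩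
  have h := hz j
  rw [zsmul_eq_mul, eq_intCast] at h
  exact_mod_cast h.symm

theorem changes {b : ℕ} (hb : 2 ≤ b) {n : ℕ} (α : Fin n → ℝ) {x : ℝ}
    (hx : x ∈ Submodule.span ℚ (insert 1 (Set.range α))) (hi : Irrational x)
    (ha : IsAlgebraic ℚ x) {q : ℕ} (hq : 1 ≤ q) : ∃ κ : ℝ, 0 < κ ∧ ∀ᶠ N : ℕ in atTop,
      κ * (Real.log N / Real.log (Real.log N)) ^ 2 ≤ ((filter (fun i : ℕ => ∃ j,
        ⌊α j * (b : ℝ) ^ (i + q)⌋ % (b : ℤ) ≠ ⌊α j * (b : ℝ) ^ i⌋ % (b : ℤ))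
          (Icc 1 N)).card : ℝ) := by
  classical
  have hβ : Base (b : ℝ)⁻¹ := ⟨b, hb, rfl⟩
  have hb0 : (0 : ℝ) < b := by positivity
  have hc : (b : ℤ) ^ q - 1 ≠ 0 := by
    have : (1 : ℤ) < (b : ℤ) ^ q := one_lt_pow₀ (by omega) (by omega)
    omega
  obtain ⟨r₀, y, hy, h⟩ := Submodule.mem_span_insert.1 hx
  obtain ⟨r, rfl⟩ := (Submodule.mem_span_range_iff_exists_fun ℚ).1 hy
  obtain ⟨D, hD, z, hz⟩ := clear_den r
  set θ : ℝ := ∑ j, z j * (((b : ℝ) ^ q - 1) * α j) with hθ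
  have e1 : θ = ((((b : ℤ) ^ q - 1) * D : ℤ) : ℝ) * (x - r₀) := by
    rw [h, hθ]
    simp only [Rat.smul_def, mul_one, add_sub_cancel_left, mul_sum, ← hz]
    push_cast
    exact sum_congr rfl fun j _ => by ring
  have e2 : Irrational θ := e1 ▸ (hi.sub_ratCast r₀).intCast_mul (mul_ne_zero hc hD)
  have e3 : IsAlgebraic ℚ θ :=
    e1 ▸ (isAlgebraic_intCast _).mul (ha.sub (isAlgebraic_ratCast ℚ r₀))
  set c : ℕ → ℤ := fun i => ∑ j, z j * dg b q (α j) i with hc'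
  obtain ⟨A, hA⟩ := exists_nat_ge
    (1 + |θ| + ∑ j, |(z j : ℝ)| * (|(dg b q (α j) 0 : ℝ)| + b))
  have p0 : 0 ≤ ∑ j, |(z j : ℝ)| * (|(dg b q (α j) 0 : ℝ)| + b) := by positivity
  have p1 := abs_nonneg θ
  obtain ⟨κ, hκ, h2⟩ := sparse hβ (c := c) (A := A) (by exact_mod_cast (by linarith : (1 : ℝ) ≤ A))
    (fun i => by
      have : |(c i : ℝ)| ≤ ∑ j, |(z j : ℝ)| * (|(dg b q (α j) 0 : ℝ)| + b) := by
        simp only [hc']
        push_cast
        refine (abs_sum_le_sum_abs _ _).trans (sum_le_sum fun j _ => ?_)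
        rw [abs_mul]
        gcongr
        exact_mod_cast dg_le hb q (α j) i
      have : (((c i).natAbs : ℕ) : ℝ) ≤ A := by
        rw [Nat.cast_natAbs, Int.cast_abs]
        linarith
      exact_mod_cast this)
    (fun T => by
      rcases T with _ | T
      · simp only [ps, range_zero, sum_empty, sub_zero, Nat.cast_zero, zpow_zero, mul_one]
        linarith
      have a1 : ps (b : ℝ)⁻¹ c (T + 1) = ∑ j, z j * ps (b : ℝ)⁻¹ (dg b q (α j)) (T + 1) := by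
        simp only [ps, hc', mul_sum]
        rw [sum_comm]
        push_cast
        simp only [sum_mul, mul_assoc]
      rw [a1, hθ, ← sum_sub_distrib]
      refine (abs_sum_le_sum_abs _ _).trans ?_
      have a2 : ∀ j ∈ univ, |(z j : ℝ) * (((b : ℝ) ^ q - 1) * α j) -
          z j * ps (b : ℝ)⁻¹ (dg b q (α j)) (T + 1)| ≤
          |(z j : ℝ)| * (|(dg b q (α j) 0 : ℝ)| + b) * (b : ℝ)⁻¹ ^ ((T + 1 : ℕ) : ℤ) :=
        fun j _ => by
          rw [← mul_sub, abs_mul, mul_assoc]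
          gcongr
          refine (dg_app hb q (α j) T).trans ?_
          calc 1 / (b : ℝ) ^ T = b * (b : ℝ)⁻¹ ^ ((T + 1 : ℕ) : ℤ) := by
                rw [zpow_natCast, inv_pow]
                field_simp
                ring
            _ ≤ _ := by
                gcongr
                linarith [abs_nonneg (dg b q (α j) 0 : ℝ)]
      refine (sum_le_sum a2).trans ?_
      rw [← sum_mul]
      gcongr
      linarith) e2 e3
  refine ⟨κ, hκ, ?_⟩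
  filter_upwards [h2] with N hN
  set C := filter (fun i : ℕ => ∃ j,
    ⌊α j * (b : ℝ) ^ (i + q)⌋ % (b : ℤ) ≠ ⌊α j * (b : ℝ) ^ i⌋ % (b : ℤ)) (Icc 1 N) with hC
  have : (Wn c 0 N).card ≤ C.card + 1 := by
    refine card_image_le.trans ((card_le_card fun i hi => ?_).trans (card_insert_le 0 C))
    obtain ⟨i1, i2⟩ := mem_filter.1 hi
    have i3 := mem_Ico.1 i1
    by_cases i0 : i = 0
    · exact mem_insert.2 (.inl i0)
    refine mem_insert_of_mem (mem_filter.2 ⟨mem_Icc.2 ⟨by omega, by omega⟩, ?_⟩)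
    by_contra hcon
    push Not at hcon
    exact i2 (sum_eq_zero fun j _ => by simp [dg, i0, hcon j])
  have : ((Wn c 0 N).card : ℝ) ≤ C.card + 1 := by exact_mod_cast this
  linarith

end Pool.Agent.P.MP_c8ecb2_nt.H14
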