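import Mathlib
import Pool.Agent.P.MP_c8ecb2_nt.H14.Final

set_option autoImplicit false

namespace Pool.Agent.Results.MP_c8ecb2_nt.AlgebraicChanges

/-- If the rational span of `1, α₁, …, αₙ` contains an irrational algebraic number (for instance if
some `αⱼ` is an algebraic irrational), then for every `q ≥ 1` the digit columns at positions `i`
and `i + q` differ for at least `c (log N / log log N) ^ 2` positions `1 ≤ i ≤ N`. -/
theorem result :
    ∀ (b : ℕ), 2 ≤ b → ∀ (n : ℕ) (α : Fin n → ℝ),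
      (∃ x ∈ Submodule.span ℚ (insert 1 (Set.range α)), Irrational x ∧ IsAlgebraic ℚ x) →
      ∀ q : ℕ, 1 ≤ q → ∃ c : ℝ, 0 < c ∧ ∀ᶠ N : ℕ in Filter.atTop,
        c * (Real.log N / Real.log (Real.log N)) ^ 2 ≤
          ((Finset.filter
            (fun i : ℕ => ∃ j : Fin n, Int.floor (α j * (b : ℝ) ^ (i + q)) % (b : ℤ) ≠
              Int.floor (α j * (b : ℝ) ^ i) % (b : ℤ))
            (Finset.Icc 1 N)).card : ℝ) := by
  intro b hb n α ⟨x, hx, hi, ha⟩ q hq
  exact Pool.Agent.P.MP_c8ecb2_nt.H14.changes hb α hx hi ha hq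

end Pool.Agent.Results.MP_c8ecb2_nt.AlgebraicChanges
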