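import Pool.Agent.P.MP_c8ecb2_nt.H14.Step

set_option autoImplicit false

namespace Pool.Agent.P.MP_c8ecb2_nt.H14

open Finset Polynomial

variable {β θ : ℝ} {c : ℕ → ℤ} {A D T₁ : ℕ}

theorem step (h : Dat β θ c A D T₁) (d : ℕ) : ∃ p, 1 ≤ p ∧ ∀ L : ℕ, 2 ≤ L →
    ∀ (U U' : Finset ℤ) (r T₀ T : ℕ) (Q : ℝ[X]), St β θ U r (d + 1) L T Q →
      (∀ z ∈ Lat U r, z < T₀ ∨ (T : ℤ) ≤ z) → (Wn c 0 T).card ≤ L → U ⊆ U' → Wn c T₀ T ⊆ U' →
      (∀ x ∈ U', -x ∈ U') → L ^ p ≤ T₀ → L ^ p * T₀ ≤ T →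
      ∃ Q', St β θ U' (d + 1 + r + (d + 1 + r)) d (L ^ p) T₀ Q' := by
  set K : ℕ → ℕ := fun L => L + (d + 1 + 1) * L * (2 * A) ^ (d + 1) +
    (d + 1 + 1) * L * (d + 1) * (2 * A) ^ (d + 1) * A with hK
  set m : ℕ → ℕ := fun L => (d + 2) * ((L * A) ^ (d + 1) * (2 ^ (d + 1) * L)) with hm
  have k1 : PB K := by
    repeat' first
      | exact PB.const _ | exact PB.id | apply PB.add | apply PB.mul
  have k2 : PB m := by
    repeat' first
      | exact PB.const _ | exact PB.id | apply PB.add | apply PB.mul | apply PB.pow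
  obtain ⟨p, hp⟩ : PB fun L => (L + (L + K L)) + T₁ +
      (2 * ((d + 2) * ((d + 2) * (2 ^ (d + 1) * L * (L * A) ^ (d + 1)) * (L * A) ^ (d + 1))) +
        K L) + (D + 1) * (L + (d + 2) * (L * A) ^ (d + 1) + 2) * (d + 3) +
      (m L + ((d + 1) * m L * (2 * m L) + 2) + (d + 1) * m L * d * (2 * A) ^ d * A) := by
    repeat' first
      | exact PB.const _ | exact PB.id | exact k1 | exact k2 | apply PB.add | apply PB.mul
      | apply PB.pow
  refine ⟨p + 1, by omega, fun L hL U U' r T₀ T Q hQ hfree hW hU hU' hs h1 h2 => ?_⟩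
  have a1 := (hp L hL).trans (Nat.pow_le_pow_right (by omega) (Nat.le_add_right p 1))
  have a2 : T₀ ≤ T := (Nat.le_mul_of_pos_left _ (by positivity)).trans h2
  beta_reduce at a1
  obtain ⟨P, b1, b2, b3, b4⟩ := trunc h hQ hfree (K := K L) le_rfl (by omega)
  obtain ⟨P₁, c1, c2, c3, c4⟩ := descend h b1 b2 b3 b4 hW (by omega) hU hU' (by omega) (by omega)
    (by rw [← mul_assoc]; exact (Nat.mul_le_mul_right _ (by omega)).trans h2)
  exact renorm h hs (m := m L) c1 c2 c3 c4 (by omega)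

theorem window {H a n j₀ : ℕ} (hH : 2 ≤ H) (ha : 1 ≤ a) {bad : ℕ → Prop} {k : ℕ}
    (h1 : ∀ J : Finset ℕ, (∀ j ∈ J, bad j) → J.card ≤ k) (hn : k + a ≤ n)
    (hW : (Wn c 0 (H ^ (j₀ + n))).card ≤ a * a) :
    ∃ j, j₀ ≤ j ∧ j < j₀ + n ∧ ¬ bad j ∧ (Wn c (H ^ j) (H ^ (j + 1))).card ≤ a := by
  classical
  by_contra hcon
  push Not at hcon
  have a1 := h1 ((Ico j₀ (j₀ + n)).filter bad) fun j hj => (mem_filter.1 hj).2
  have a2 := card_filter_add_card_filter_not (s := Ico j₀ (j₀ + n)) bad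
  set J := (Ico j₀ (j₀ + n)).filter (¬ bad ·) with hJ
  have a3 : ∀ j ∈ J, j < j₀ + n ∧ a + 1 ≤ (Wn c (H ^ j) (H ^ (j + 1))).card := fun j hj => by
    obtain ⟨x1, x2⟩ := mem_filter.1 hj
    obtain ⟨x3, x4⟩ := mem_Ico.1 x1
    exact ⟨x4, hcon j x3 x4 x2⟩
  have a4 : ∀ i j, i < j → Disjoint (Wn c (H ^ i) (H ^ (i + 1))) (Wn c (H ^ j) (H ^ (j + 1))) :=
    fun i j hij => disjoint_left.2 fun z x1 x2 => by
      have := (Wn_bd x1).2
      have := (Wn_bd x2).1
      have : H ^ (i + 1) ≤ H ^ j := Nat.pow_le_pow_right (by omega) hij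
      omega
  have a5 : J.card * (a + 1) ≤ a * a := by
    refine le_trans ?_ ((card_le_card (s := J.biUnion fun j => Wn c (H ^ j) (H ^ (j + 1)))
      (biUnion_subset.2 fun j hj => Wn_mono (Nat.zero_le _)
        (Nat.pow_le_pow_right (by omega) (a3 j hj).1))).trans hW)
    rw [card_biUnion fun i _ j _ hij => (lt_or_gt_of_ne hij).elim (a4 i j) fun h => (a4 j i h).symm]
    simpa using card_nsmul_le_sum J _ (a + 1) fun j hj => (a3 j hj).2
  rw [Nat.card_Ico] at a2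
  have a6 : a ≤ J.card := by omega
  nlinarith

theorem claim (h : Dat β θ c A D T₁) (d : ℕ) : ∀ r k : ℕ, ∃ p C : ℕ, ∀ L : ℕ, 2 ≤ L →
    ∀ (a n H : ℕ) (U : Finset ℤ) (Q : ℝ[X]), L ^ p ≤ H → 1 ≤ a → C * a ≤ n →
      (∀ x ∈ U, -x ∈ U) → U.card ≤ k * a → a * a ≤ L → (Wn c 0 (H ^ (1 + d * n))).card ≤ a * a →
      ¬ St β θ U r d L (H ^ (1 + d * n) : ℕ) Q := by
  have hβ := h.base
  induction d with
  | zero =>
    refine fun r k => ⟨2, 0, fun L hL a n H U Q h1 _ _ _ _ _ _ hQ => ?_⟩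
    obtain ⟨i, hi⟩ := hQ.big
    have b0 := hQ.small
    have b1 : |Q.coeff i| ≤ |Q.eval θ| := by
      rcases Nat.eq_zero_or_pos i with rfl | hi
      · conv_rhs => rw [eq_C_of_natDegree_le_zero hQ.deg, eval_C]
      · rw [coeff_eq_zero_of_natDegree_lt (hQ.deg.trans_lt hi), abs_zero]
        positivity
    have b3 := hβ.lt (m := L) (e := L) (T := (H ^ (1 + 0 * n) : ℕ)) (by
      have : L + L ≤ H ^ (1 + 0 * n) := by simp; nlinarith
      exact_mod_cast this)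
    linarith
  | succ d ih =>
    intro r k
    obtain ⟨p₀, hp, h₀⟩ := step h d
    obtain ⟨p₁, C₁, h₁⟩ := ih (d + 1 + r + (d + 1 + r)) (k + 2)
    obtain ⟨C₀, h₂⟩ := lin r
    refine ⟨p₀ * (p₁ + 1), C₁ + C₀ * k + 1, fun L hL a n H U Q h1 h2 h3 h4 h5 h6 h7 hQ => ?_⟩
    have a0 : L ≤ L ^ p₀ := Nat.le_self_pow (by omega) _
    have a1 : L ^ p₀ ≤ H := (Nat.pow_le_pow_right (by omega) (by nlinarith)).trans h1
    have a2 : (L ^ p₀) ^ p₁ ≤ H := by
      rw [← pow_mul]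
      exact (Nat.pow_le_pow_right (by omega) (by nlinarith)).trans h1
    have hH : 2 ≤ H := by omega
    have e : 1 + (d + 1) * n = 1 + d * n + n := by ring
    rw [e] at h7 hQ
    obtain ⟨j, j1, j2, j3, j4⟩ := window hH h2 (k := C₀ * (k * a))
      (bad := fun j => ∃ z ∈ Lat U r, (H : ℤ) ^ j ≤ z ∧ z < (H : ℤ) ^ (j + 1))
      (fun J hJ => (h₂ U H hH J hJ).trans (by gcongr)) (le_trans (by nlinarith) h3) h7
    have a3 : H ^ (j + 1) ≤ H ^ (1 + d * n + n) := Nat.pow_le_pow_right (by omega) j2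
    have a4 : H ^ (1 + d * n) ≤ H ^ j := Nat.pow_le_pow_right (by omega) j1
    set W := Wn c (H ^ j) (H ^ (j + 1)) with hW
    have a5 : ∀ x ∈ U ∪ (W ∪ W.image (-·)), -x ∈ U ∪ (W ∪ W.image (-·)) := fun x hx => by
      simp only [mem_union, mem_image] at hx ⊢
      rcases hx with hx | hx | ⟨y, hy, rfl⟩
      exacts [.inl (h4 x hx), .inr (.inr ⟨x, hx, rfl⟩), .inr (.inl (by simpa using hy))]
    obtain ⟨Q', hQ'⟩ := h₀ L hL U (U ∪ (W ∪ W.image (-·))) r (H ^ j) (H ^ (j + 1)) Q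
      (hQ.mono hβ le_rfl (by exact_mod_cast a3))
      (fun z hz => by
        by_contra hcon
        push Not at hcon
        exact j3 ⟨z, hz, by exact_mod_cast hcon.1, by exact_mod_cast hcon.2⟩)
      (((card_le_card (Wn_mono le_rfl a3)).trans h7).trans h6) subset_union_left
      (subset_union_left.trans subset_union_right) a5
      (a1.trans (Nat.le_self_pow (by omega) _)) (by rw [pow_succ']; gcongr)
    refine h₁ (L ^ p₀) (by omega) a n H _ Q' a2 h2 (le_trans (by nlinarith) h3) a5 ?_ (by omega)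
      ((card_le_card (Wn_mono le_rfl (Nat.pow_le_pow_right (by omega) (by omega)))).trans h7)
      (hQ'.mono hβ le_rfl (by exact_mod_cast a4))
    have b1 := card_union_le U (W ∪ W.image (-·))
    have b2 := card_union_le W (W.image (-·))
    have b3 := card_image_le (s := W) (f := (-·))
    rw [add_mul]
    omega

theorem core (h : Dat β θ c A D T₁) {P : ℤ[X]} (hP : P ≠ 0)
    (hθ : (P.map (algebraMap ℤ ℝ)).eval θ = 0) :
    ∃ E : ℕ, ∀ a : ℕ, 2 ≤ a → a * a < (Wn c 0 (a ^ (E * a))).card := by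
  have hβ := h.base
  obtain ⟨p, C, h₁⟩ := claim h P.natDegree 0 0
  obtain ⟨e, he⟩ : PB fun a => ∑ i ∈ P.support, (P.coeff i).natAbs + a * a :=
    (PB.const _).add (PB.id.mul PB.id)
  refine ⟨e * p * (1 + P.natDegree * C), fun a ha => lt_of_not_ge fun hW => ?_⟩
  have a1 := he a ha
  beta_reduce at a1
  have a2 : 2 * 2 ≤ a * a := Nat.mul_le_mul ha ha
  refine h₁ (a ^ e) (by omega) a (C * a) _ ∅ (P.map (algebraMap ℤ ℝ)) le_rfl (by omega) le_rfl
    (by simp) (by simp) (by omega) ((card_le_card (Wn_mono le_rfl ?_)).trans hW)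
    ⟨natDegree_map_le, fun i => ?_, ⟨P.natDegree, ?_⟩, ?_⟩
  · rw [← pow_mul, ← pow_mul, ← mul_assoc, mul_assoc (e * p)]
    exact Nat.pow_le_pow_right (by omega) (Nat.mul_le_mul_left _ (by nlinarith))
  · refine (Rep.int_mul_pow (n := 0) (And.intro (Lat.zero _ _) le_rfl) (P.coeff i) ?_).cast
      (by simp)
    by_cases hi : i ∈ P.support
    · have := single_le_sum (f := fun i => (P.coeff i).natAbs) (fun _ _ => Nat.zero_le _) hi
      beta_reduce at this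
      omega
    · simp [notMem_support_iff.1 hi]
  · refine (hβ.anti (Int.natCast_nonneg _)).trans ?_
    rw [zpow_zero, coeff_map, eq_intCast]
    exact_mod_cast Int.one_le_abs (leadingCoeff_ne_zero.2 hP)
  · rw [hθ, abs_zero]
    exact mul_nonneg (by positivity) (zpow_pos hβ.pos _).le

end Pool.Agent.P.MP_c8ecb2_nt.H14
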