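import Mathlib

set_option autoImplicit false

namespace Pool.Agent.P.MP_c8ecb2_nt.H14

open Finset

/-- Sums of at most `R` elements of `U` (with repetition). -/
def Lat (U : Finset ℤ) (R : ℕ) : Set ℤ :=
  {z | ∃ s : Multiset ℤ, s.card ≤ R ∧ (∀ x ∈ s, x ∈ U) ∧ s.sum = z}

theorem Lat.zero (U : Finset ℤ) (R : ℕ) : (0 : ℤ) ∈ Lat U R := ⟨0, by simp, by simp, by simp⟩

theorem Lat.of_mem {U : Finset ℤ} {x : ℤ} (h : x ∈ U) : x ∈ Lat U 1 :=
  ⟨{x}, by simp, by simpa using h, by simp⟩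

theorem Lat.add {U : Finset ℤ} {R R' : ℕ} {x y : ℤ} (hx : x ∈ Lat U R) (hy : y ∈ Lat U R') :
    x + y ∈ Lat U (R + R') := by
  obtain ⟨s, h1, h2, rfl⟩ := hx
  obtain ⟨t, h3, h4, rfl⟩ := hy
  refine ⟨s + t, by rw [Multiset.card_add]; omega, fun x hx => ?_, by simp⟩
  rcases Multiset.mem_add.1 hx with h | h
  exacts [h2 x h, h4 x h]

theorem Lat.mono {U U' : Finset ℤ} {R R' : ℕ} (hU : U ⊆ U') (hR : R ≤ R') {x : ℤ}
    (hx : x ∈ Lat U R) : x ∈ Lat U' R' := by
  obtain ⟨s, h1, h2, rfl⟩ := hx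
  exact ⟨s, h1.trans hR, fun x hx => hU (h2 x hx), rfl⟩

theorem Lat.neg {U : Finset ℤ} (hU : ∀ x ∈ U, -x ∈ U) {R : ℕ} {x : ℤ} (hx : x ∈ Lat U R) :
    -x ∈ Lat U R := by
  obtain ⟨s, h1, h2, rfl⟩ := hx
  refine ⟨s.map fun x => -x, by simpa using h1, fun x hx => ?_, Multiset.sum_map_neg' s⟩
  obtain ⟨y, hy, rfl⟩ := Multiset.mem_map.1 hx
  exact hU y (h2 y hy)

theorem card_le_one_of_zero {P : Finset ℤ} (h : ∀ z ∈ P, z = 0) : P.card ≤ 1 :=
  card_le_one.2 fun a ha c hc => (h a ha).trans (h c hc).symm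

theorem lat_count (p : ℕ) (U : Finset ℤ) : ∀ (R : ℕ) (P : Finset ℤ), (∀ z ∈ P, z ∈ Lat U R) →
    P.card * p ^ R ≤ (p + 1) ^ (R + U.card) := by
  induction U using Finset.induction_on with
  | empty =>
    intro R P hP
    have h1 : P.card ≤ 1 := card_le_one_of_zero fun z hz => by
      obtain ⟨s, -, h2, rfl⟩ := hP z hz
      have : s = 0 := Multiset.eq_zero_of_forall_notMem fun x hx => by simpa using h2 x hx
      simp [this]
    calc P.card * p ^ R ≤ 1 * (p + 1) ^ R := by gcongr; omega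
      _ = _ := by simp
  | insert x U hx ihU =>
    intro R
    induction R with
    | zero =>
      intro P hP
      have h1 : P.card ≤ 1 := card_le_one_of_zero fun z hz => by
        obtain ⟨s, h1, -, rfl⟩ := hP z hz
        have : s = 0 := Multiset.card_eq_zero.1 (by omega)
        simp [this]
      have : 1 ≤ (p + 1) ^ (0 + (insert x U).card) := Nat.one_le_pow _ _ (by omega)
      simpa using h1.trans (by simpa using this)
    | succ R ihR =>
      classical
      intro P hP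
      have h1 := ihU (R + 1) (P.filter (· ∈ Lat U (R + 1))) fun z hz => (mem_filter.1 hz).2
      have h2 := ihR ((P.filter (· ∉ Lat U (R + 1))).image (· - x)) fun z hz => by
        obtain ⟨w, hw, rfl⟩ := mem_image.1 hz
        obtain ⟨hw1, hw2⟩ := mem_filter.1 hw
        obtain ⟨s, a1, a2, rfl⟩ := hP w hw1
        by_cases hxs : x ∈ s
        · obtain ⟨t, rfl⟩ := Multiset.exists_cons_of_mem hxs
          refine ⟨t, by simpa using a1, fun y hy => a2 y (Multiset.mem_cons_of_mem hy), by simp⟩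
        · refine absurd ⟨s, a1, fun y hy => ?_, rfl⟩ hw2
          rcases mem_insert.1 (a2 y hy) with rfl | h
          exacts [absurd hy hxs, h]
      rw [card_image_of_injective _ sub_left_injective] at h2
      rw [card_insert_of_notMem hx] at h2 ⊢
      have h3 := card_filter_add_card_filter_not (s := P) (· ∈ Lat U (R + 1))
      rw [← h3, add_mul]
      calc _ ≤ (p + 1) ^ (R + 1 + U.card) + (p + 1) ^ (R + (U.card + 1)) * p := by
            refine add_le_add h1 ?_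
            rw [pow_succ, ← mul_assoc]
            gcongr
        _ = _ := by ring

theorem subset_sums {U : Finset ℤ} {r H ρ : ℕ} (hH : 2 ≤ H) (J : Finset ℕ) :
    (∀ j ∈ J, j % 2 = ρ) → (∀ j ∈ J, ∃ z ∈ Lat U r, (H : ℤ) ^ j ≤ z ∧ z < (H : ℤ) ^ (j + 1)) →
    ∃ P : Finset ℤ, P.card = 2 ^ J.card ∧ ∀ x ∈ P, x ∈ Lat U (r * J.card) ∧ 0 ≤ x ∧
      ∀ m, (∀ j ∈ J, j + 2 ≤ m) → x < (H : ℤ) ^ m := by
  have hH' : (2 : ℤ) ≤ H := by exact_mod_cast hH
  induction J using Finset.induction_on_max with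
  | empty =>
    intro _ _
    refine ⟨{0}, by simp, fun x hx => ?_⟩
    rw [mem_singleton.1 hx]
    exact ⟨Lat.zero _ _, le_rfl, fun m _ => by positivity⟩
  | insert a s ha ih =>
    intro h1 h2
    have has : a ∉ s := fun h => lt_irrefl _ (ha a h)
    obtain ⟨P, hP1, hP2⟩ := ih (fun j hj => h1 j (mem_insert_of_mem hj))
      fun j hj => h2 j (mem_insert_of_mem hj)
    obtain ⟨z, hz1, hz2, hz3⟩ := h2 a (mem_insert_self _ _)
    have h3 : ∀ x ∈ P, x < (H : ℤ) ^ a := fun x hx => (hP2 x hx).2.2 a fun j hj => by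
      have := ha j hj
      have := h1 j (mem_insert_of_mem hj)
      have := h1 a (mem_insert_self _ _)
      omega
    have h4 : ∀ m, (∀ j ∈ insert a s, j + 2 ≤ m) → 2 * (H : ℤ) ^ (a + 1) ≤ (H : ℤ) ^ m :=
      fun m hm => by
        calc 2 * (H : ℤ) ^ (a + 1) ≤ H * (H : ℤ) ^ (a + 1) := by gcongr
          _ = (H : ℤ) ^ (a + 2) := by ring
          _ ≤ _ := pow_le_pow_right₀ (by omega) (hm a (mem_insert_self _ _))
    refine ⟨P ∪ P.image (· + z), ?_, fun x hx => ?_⟩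
    · rw [card_union_of_disjoint, card_image_of_injective _ (add_left_injective z), hP1,
        card_insert_of_notMem has]
      · ring
      · refine disjoint_left.2 fun x hx hx' => ?_
        obtain ⟨w, hw, rfl⟩ := mem_image.1 hx'
        have := h3 _ hx
        have := (hP2 w hw).2.1
        omega
    · rw [card_insert_of_notMem has]
      rcases mem_union.1 hx with hx | hx
      · refine ⟨Lat.mono subset_rfl (by nlinarith) (hP2 x hx).1, (hP2 x hx).2.1, fun m hm => ?_⟩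
        have := h3 x hx
        have := h4 m hm
        have := (hP2 x hx).2.1
        omega
      · obtain ⟨w, hw, rfl⟩ := mem_image.1 hx
        have := h3 w hw
        have := (hP2 w hw).2.1
        refine ⟨Lat.add (hP2 w hw).1 hz1, by omega, fun m hm => ?_⟩
        have := h4 m hm
        omega

theorem lin_aux (r : ℕ) : ∃ C : ℕ, ∀ (U P : Finset ℤ) (s : ℕ), P.card = 2 ^ s →
    (∀ x ∈ P, x ∈ Lat U (r * s)) → s ≤ C * U.card := by
  set p := 3 * r + 1 with hp
  have h1 : 2 * ((p : ℝ) + 1) ^ r ≤ 3 * (p : ℝ) ^ r := by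
    have hp0 : (0 : ℝ) < (p : ℝ) + 1 := by positivity
    have a1 := one_add_mul_le_pow (a := -(1 / ((p : ℝ) + 1))) (by
      have : 1 / ((p : ℝ) + 1) ≤ 1 := by
        rw [div_le_one hp0]; linarith [Nat.cast_nonneg (α := ℝ) p]
      linarith) r
    have a2 : 1 + -(1 / ((p : ℝ) + 1)) = p / (p + 1) := by field_simp; ring
    have a3 : (2 : ℝ) / 3 ≤ 1 + r * -(1 / ((p : ℝ) + 1)) := by
      have : (r : ℝ) * (1 / ((p : ℝ) + 1)) ≤ 1 / 3 := by
        rw [mul_one_div, div_le_iff₀ hp0, hp]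
        push_cast
        linarith
      linarith
    rw [a2, div_pow] at a1
    have a4 := a3.trans a1
    rw [div_le_div_iff₀ (by norm_num) (by positivity)] at a4
    linarith
  obtain ⟨C, hC⟩ := pow_unbounded_of_one_lt ((p : ℝ) + 1) (show (1 : ℝ) < 4 / 3 by norm_num)
  refine ⟨C, fun U P s hP hL => ?_⟩
  have h2 : ((2 : ℝ) ^ s) * (p : ℝ) ^ (r * s) ≤ ((p : ℝ) + 1) ^ (r * s + U.card) := by
    have := lat_count p U (r * s) P hL
    rw [hP] at this
    exact_mod_cast this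
  have h3 : (2 * ((p : ℝ) + 1) ^ r) ^ s ≤ (3 * (p : ℝ) ^ r) ^ s := by gcongr
  rw [mul_pow, mul_pow, ← pow_mul, ← pow_mul] at h3
  have hp0 : (0 : ℝ) < (p : ℝ) ^ (r * s) := by positivity
  have h4 : (4 / 3 : ℝ) ^ s ≤ ((p : ℝ) + 1) ^ U.card := by
    rw [div_pow, div_le_iff₀ (by positivity)]
    refine le_of_mul_le_mul_right ?_ hp0
    calc (4 : ℝ) ^ s * (p : ℝ) ^ (r * s) = 2 ^ s * (2 ^ s * (p : ℝ) ^ (r * s)) := by
          rw [← mul_assoc, ← mul_pow]; norm_num
      _ ≤ 2 ^ s * ((p : ℝ) + 1) ^ (r * s + U.card) := by gcongr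
      _ = (2 ^ s * ((p : ℝ) + 1) ^ (r * s)) * ((p : ℝ) + 1) ^ U.card := by ring
      _ ≤ (3 ^ s * (p : ℝ) ^ (r * s)) * ((p : ℝ) + 1) ^ U.card := by gcongr
      _ = _ := by ring
  have h5 : (4 / 3 : ℝ) ^ s ≤ (4 / 3 : ℝ) ^ (C * U.card) := by
    rw [pow_mul]
    exact h4.trans (by gcongr)
  exact (pow_le_pow_iff_right₀ (by norm_num)).1 h5

/-- Sums of at most `r` elements of `U` meet only `O(|U|)` of the windows `[H ^ j, H ^ (j + 1))`. -/
theorem lin (r : ℕ) : ∃ C : ℕ, ∀ (U : Finset ℤ) (H : ℕ), 2 ≤ H → ∀ J : Finset ℕ,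
    (∀ j ∈ J, ∃ z ∈ Lat U r, (H : ℤ) ^ j ≤ z ∧ z < (H : ℤ) ^ (j + 1)) → J.card ≤ C * U.card := by
  obtain ⟨C, hC⟩ := lin_aux r
  refine ⟨2 * C, fun U H hH J hJ => ?_⟩
  have h : ∀ ρ (J' : Finset ℕ), J' ⊆ J → (∀ j ∈ J', j % 2 = ρ) → J'.card ≤ C * U.card :=
    fun ρ J' h1 h2 => by
      obtain ⟨P, a1, a2⟩ := subset_sums hH J' h2 fun j hj => hJ j (h1 hj)
      exact hC U P _ a1 fun x hx => (a2 x hx).1
  have h1 := h 0 (J.filter (· % 2 = 0)) (filter_subset _ _) fun j hj => (mem_filter.1 hj).2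
  have h2 := h 1 (J.filter (¬ · % 2 = 0)) (filter_subset _ _) fun j hj => by
    have := (mem_filter.1 hj).2
    omega
  have h3 := card_filter_add_card_filter_not (s := J) (· % 2 = 0)
  rw [mul_assoc]
  omega

end Pool.Agent.P.MP_c8ecb2_nt.H14
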