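import Pool.Agent.P.MP_c8ecb2_nt.H14.Rep

set_option autoImplicit false

namespace Pool.Agent.P.MP_c8ecb2_nt.H14

open Finset Polynomial

theorem eval_abs_le {P : ℝ[X]} {d : ℕ} (hd : P.natDegree ≤ d) {κ R x : ℝ}
    (hκ : ∀ i, |P.coeff i| ≤ κ) (hR : 1 ≤ R) (hx : |x| ≤ R) :
    |P.eval x| ≤ (d + 1) * κ * R ^ d := by
  have h0 : 0 ≤ κ := (abs_nonneg _).trans (hκ 0)
  rw [eval_eq_sum_range' (Nat.lt_succ_of_le hd)]
  refine (abs_sum_le_sum_abs _ _).trans ?_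
  refine (sum_le_card_nsmul _ _ (κ * R ^ d) fun i hi => ?_).trans (le_of_eq (by simp; ring))
  rw [abs_mul, abs_pow]
  refine mul_le_mul (hκ i) ?_ (by positivity) h0
  exact (pow_le_pow_left₀ (abs_nonneg _) hx i).trans
    (pow_le_pow_right₀ hR (Nat.lt_succ_iff.1 (mem_range.1 hi)))

theorem eval_lip {P : ℝ[X]} {d : ℕ} (hd : P.natDegree ≤ d) {κ R x y : ℝ}
    (hκ : ∀ i, |P.coeff i| ≤ κ) (hR : 1 ≤ R) (hx : |x| ≤ R) (hy : |y| ≤ R) :
    |P.eval x - P.eval y| ≤ (d + 1) * κ * d * R ^ d * |x - y| := by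
  have h0 : 0 ≤ κ := (abs_nonneg _).trans (hκ 0)
  rw [eval_eq_sum_range' (Nat.lt_succ_of_le hd), eval_eq_sum_range' (Nat.lt_succ_of_le hd),
    ← sum_sub_distrib]
  refine (abs_sum_le_sum_abs _ _).trans ?_
  refine (sum_le_card_nsmul _ _ (κ * (|x - y| * d * R ^ d)) fun i hi => ?_).trans
    (le_of_eq (by simp; ring))
  have hi' := Nat.lt_succ_iff.1 (mem_range.1 hi)
  rw [← mul_sub, abs_mul]
  refine mul_le_mul (hκ i) ((abs_pow_sub_pow_le x y i).trans ?_) (by positivity) h0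
  refine mul_le_mul (by gcongr) ?_ (by positivity) (by positivity)
  exact (pow_le_pow_left₀ (by positivity) (max_le hx hy) _).trans
    (pow_le_pow_right₀ hR (by omega))

theorem exists_poly (d : ℕ) (q : ℕ → ℝ) :
    ∃ P : ℝ[X], P.natDegree ≤ d ∧ ∀ i ≤ d, P.coeff i = q i := by
  refine ⟨∑ i ∈ range (d + 1), monomial i (q i), ?_, fun i hi => ?_⟩
  · refine natDegree_sum_le_of_forall_le _ _ fun i hi => (natDegree_monomial_le _).trans ?_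
    exact Nat.lt_succ_iff.1 (mem_range.1 hi)
  · simp only [finsetSum_coeff, coeff_monomial, sum_ite_eq', mem_range]
    rw [if_pos (by omega)]

theorem Rep.eval {β : ℝ} (hβ : β ≠ 0) {P : ℝ[X]} {d μ m : ℕ} {T : ℤ} {x : ℝ}
    (hd : P.natDegree ≤ d) (hP : ∀ i, Rep β (Set.Icc 0 T) μ (P.coeff i))
    (hx : Rep β (Set.Icc 0 T) m x) (hm : 1 ≤ m) (hT : 0 ≤ T) :
    Rep β (Set.Icc 0 ((d + 1) * T)) ((d + 1) * (μ * m ^ d)) (P.eval x) := by
  rw [eval_eq_sum_range' (Nat.lt_succ_of_le hd)]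
  have h := Rep.sum (β := β) (Z := Set.Icc 0 ((d + 1) * T)) (μ := μ * m ^ d) (range (d + 1))
    (f := fun i => P.coeff i * x ^ i) fun i hi => by
      have hi' := Nat.lt_succ_iff.1 (mem_range.1 hi)
      have h1 := hx.pow hβ (fun k => Set.Icc 0 (k * T)) (by simp) (fun k w hw z hz => by
        push_cast
        exact ⟨add_nonneg hw.1 hz.1, by linarith [hw.2, hz.2]⟩) i
      refine ((hP i).mul hβ h1 (W := Set.Icc 0 ((d + 1) * T)) fun z hz w hw =>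
        ⟨add_nonneg hz.1 hw.1, ?_⟩).mono subset_rfl (by gcongr)
      have : (i : ℤ) * T ≤ d * T := by gcongr
      linarith [hw.2, hz.2]
  simpa using h

theorem Rep.hasse {β : ℝ} (hβ : β ≠ 0) {P : ℝ[X]} {d μ : ℕ} {Z : Set ℤ} (hd : P.natDegree ≤ d)
    (hP : ∀ i, Rep β Z μ (P.coeff i)) (r i : ℕ) :
    Rep β Z (2 ^ d * μ) ((hasseDeriv r P).coeff i) := by
  rw [hasseDeriv_coeff]
  by_cases h : i + r ≤ d
  · refine ((hP _).nat_mul hβ _).mono subset_rfl ?_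
    gcongr
    exact (Nat.choose_le_two_pow _ _).trans (Nat.pow_le_pow_right (by norm_num) h)
  · rw [coeff_eq_zero_of_natDegree_lt (by omega), mul_zero]
    exact .zero _

theorem eval_add_eq {P : ℝ[X]} {d : ℕ} (hd : P.natDegree ≤ d) (x u : ℝ) :
    P.eval (x + u) = ∑ r ∈ range (d + 1), (hasseDeriv r P).eval x * u ^ r := by
  rw [add_comm, ← taylor_eval, eval_eq_sum_range' (n := d + 1) (by rw [natDegree_taylor]; omega)]
  simp only [taylor_coeff]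

/-- Partial sums of the digit series. -/
noncomputable def ps (β : ℝ) (c : ℕ → ℤ) (T : ℕ) : ℝ := ∑ n ∈ range T, c n * β ^ (n : ℤ)

/-- Positions of the nonzero digits in `[T, T')`. -/
def Wn (c : ℕ → ℤ) (T T' : ℕ) : Finset ℤ := ((Ico T T').filter (c · ≠ 0)).image (↑)

theorem mem_Wn {c : ℕ → ℤ} {T T' : ℕ} {z : ℤ} :
    z ∈ Wn c T T' ↔ ∃ n : ℕ, ((T ≤ n ∧ n < T') ∧ c n ≠ 0) ∧ (n : ℤ) = z := by
  simp only [Wn, mem_image, mem_filter, mem_Ico]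

theorem Wn_bd {c : ℕ → ℤ} {T T' : ℕ} {z : ℤ} (h : z ∈ Wn c T T') : (T : ℤ) ≤ z ∧ z < T' := by
  obtain ⟨n, ⟨⟨h1, h2⟩, -⟩, rfl⟩ := mem_Wn.1 h
  omega

theorem Wn_mono {c : ℕ → ℤ} {T T' S S' : ℕ} (h : S ≤ T) (h' : T' ≤ S') : Wn c T T' ⊆ Wn c S S' :=
  fun z hz => by
    obtain ⟨n, ⟨⟨h1, h2⟩, h3⟩, rfl⟩ := mem_Wn.1 hz
    exact mem_Wn.2 ⟨n, ⟨⟨by omega, by omega⟩, h3⟩, rfl⟩

theorem ps_rep {β : ℝ} {c : ℕ → ℤ} {A T T' m : ℕ} (hA : ∀ n, (c n).natAbs ≤ A) (h : T ≤ T')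
    (hm : (Wn c T T').card ≤ m) : Rep β (Wn c T T') (m * A) (ps β c T' - ps β c T) := by
  have h1 : ps β c T' - ps β c T = ∑ n ∈ (Ico T T').filter (c · ≠ 0), c n * β ^ (n : ℤ) := by
    rw [sum_filter_of_ne, sum_Ico_eq_sub _ h]
    · rfl
    · exact fun n _ hn h0 => hn (by simp [h0])
  rw [h1]
  refine (Rep.sum _ fun n hn => Rep.int_mul_pow (mem_image_of_mem _ hn) _ (hA n)).mono
    subset_rfl ?_
  rw [Wn, card_image_of_injective _ Nat.cast_injective] at hm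
  gcongr

/-- The data: a digit series with bounded digits and a Liouville type property. -/
structure Dat (β θ : ℝ) (c : ℕ → ℤ) (A D T₁ : ℕ) : Prop where
  base : Base β
  one_le : 1 ≤ A
  one_le' : 1 ≤ D
  dig : ∀ n, (c n).natAbs ≤ A
  app : ∀ T : ℕ, |θ - ps β c T| ≤ A * β ^ (T : ℤ)
  lio : ∀ T T', T₁ ≤ T → D * T ≤ T' → ps β c T' ≠ ps β c T

theorem Dat.abs_le {β θ : ℝ} {c : ℕ → ℤ} {A D T₁ : ℕ} (h : Dat β θ c A D T₁) :
    (1 : ℝ) ≤ 2 * A ∧ |θ| ≤ 2 * A ∧ ∀ T, |ps β c T| ≤ 2 * A := by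
  have h1 : (1 : ℝ) ≤ A := by exact_mod_cast h.one_le
  have h2 : |θ| ≤ A := by simpa [ps] using h.app 0
  refine ⟨by linarith, by linarith, fun T => ?_⟩
  have h3 := h.app T
  have h4 : β ^ (T : ℤ) ≤ β ^ (0 : ℤ) := h.base.anti (by omega)
  rw [zpow_zero] at h4
  have h5 : (A : ℝ) * β ^ (T : ℤ) ≤ A := mul_le_of_le_one_right (by linarith) h4
  have h6 := abs_sub θ (θ - ps β c T)
  rw [sub_sub_cancel] at h6
  linarith

/-- Polynomially bounded functions. -/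
def PB (f : ℕ → ℕ) : Prop := ∃ p, ∀ L, 2 ≤ L → f L ≤ L ^ p

theorem PB.const (c : ℕ) : PB fun _ => c :=
  ⟨c, fun _ hL => Nat.lt_two_pow_self.le.trans (Nat.pow_le_pow_left hL c)⟩

theorem PB.id : PB fun L => L := ⟨1, fun _ _ => by simp⟩

theorem PB.mul {f g : ℕ → ℕ} (hf : PB f) (hg : PB g) : PB fun L => f L * g L := by
  obtain ⟨p, hp⟩ := hf
  obtain ⟨q, hq⟩ := hg
  exact ⟨p + q, fun L hL => by rw [pow_add]; exact Nat.mul_le_mul (hp L hL) (hq L hL)⟩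

theorem PB.add {f g : ℕ → ℕ} (hf : PB f) (hg : PB g) : PB fun L => f L + g L := by
  obtain ⟨p, hp⟩ := hf
  obtain ⟨q, hq⟩ := hg
  refine ⟨p + q + 1, fun L hL => ?_⟩
  have h1 : L ^ p ≤ L ^ (p + q) := Nat.pow_le_pow_right (by omega) (by omega)
  have h2 : L ^ q ≤ L ^ (p + q) := Nat.pow_le_pow_right (by omega) (by omega)
  have h3 : L ^ (p + q) * 2 ≤ L ^ (p + q) * L := Nat.mul_le_mul_left _ hL
  have := hp L hL
  have := hq L hL
  rw [pow_succ]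
  beta_reduce
  omega

theorem PB.pow {f : ℕ → ℕ} (k : ℕ) (hf : PB f) : PB fun L => f L ^ k := by
  obtain ⟨p, hp⟩ := hf
  exact ⟨p * k, fun L hL => by rw [pow_mul]; exact Nat.pow_le_pow_left (hp L hL) k⟩

/-- The state of the descent. -/
structure St (β θ : ℝ) (U : Finset ℤ) (r d L : ℕ) (T : ℤ) (Q : ℝ[X]) : Prop where
  deg : Q.natDegree ≤ d
  rep : ∀ i, Rep β {z | z ∈ Lat U r ∧ 0 ≤ z} L (Q.coeff i)
  big : ∃ i, β ^ (L : ℤ) ≤ |Q.coeff i|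
  small : |Q.eval θ| ≤ L * β ^ T

theorem St.mono {β θ : ℝ} (hβ : Base β) {U : Finset ℤ} {r d L L' : ℕ} {T T' : ℤ} {Q : ℝ[X]}
    (h : St β θ U r d L T Q) (hL : L ≤ L') (hT : T' ≤ T) : St β θ U r d L' T' Q := by
  refine ⟨h.deg, fun i => (h.rep i).mono subset_rfl hL, h.big.imp fun i hi => ?_, h.small.trans ?_⟩
  · exact (hβ.anti (by omega)).trans hi
  · exact mul_le_mul (by exact_mod_cast hL) (hβ.anti hT) (zpow_pos hβ.pos _).le (by positivity)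

end Pool.Agent.P.MP_c8ecb2_nt.H14
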