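import Pool.Agent.P.MP_c8ecb2_nt.H14.Lat

set_option autoImplicit false

namespace Pool.Agent.P.MP_c8ecb2_nt.H14

open Finset

/-- `β` is the reciprocal of an integer base. -/
def Base (β : ℝ) : Prop := ∃ b : ℕ, 2 ≤ b ∧ β = (b : ℝ)⁻¹

theorem Base.pos {β : ℝ} (h : Base β) : 0 < β := by
  obtain ⟨b, hb, rfl⟩ := h
  have : 0 < b := by omega
  positivity

theorem Base.le_half {β : ℝ} (h : Base β) : β ≤ 1 / 2 := by
  obtain ⟨b, hb, rfl⟩ := h
  rw [one_div]
  exact inv_anti₀ (by norm_num) (by exact_mod_cast hb)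

theorem Base.anti {β : ℝ} (h : Base β) {e e' : ℤ} (he : e ≤ e') : β ^ e' ≤ β ^ e :=
  zpow_le_zpow_right_of_le_one₀ h.pos (by linarith [h.le_half]) he

theorem Base.int {β : ℝ} (h : Base β) {n e : ℤ} (hn : n ≤ e) : ∃ k : ℤ, β ^ n = k * β ^ e := by
  have h0 := h.pos
  obtain ⟨b, hb, hβ⟩ := h
  obtain ⟨m, rfl⟩ : ∃ m : ℕ, e = n + m := ⟨(e - n).toNat, by omega⟩
  refine ⟨(b : ℤ) ^ m, ?_⟩
  have hb0 : (b : ℝ) ≠ 0 := by positivity
  have h1 : (b : ℝ) ^ m * β ^ m = 1 := by rw [← mul_pow, hβ, mul_inv_cancel₀ hb0, one_pow]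
  rw [zpow_add₀ h0.ne', zpow_natCast]
  push_cast
  linear_combination (-β ^ n) * h1

theorem Base.lt {β : ℝ} (h : Base β) {m : ℕ} {e T : ℤ} (hT : e + m ≤ T) :
    (m : ℝ) * β ^ T < β ^ e := by
  have h0 := h.pos
  have h1 : (m : ℝ) * β ^ m < 1 := by
    have a1 : β ^ m ≤ (1 / 2) ^ m := pow_le_pow_left₀ h0.le h.le_half m
    have a2 : (m : ℝ) < 2 ^ m := by exact_mod_cast Nat.lt_two_pow_self
    calc (m : ℝ) * β ^ m ≤ m * (1 / 2) ^ m := by gcongr
      _ < 2 ^ m * (1 / 2) ^ m := by gcongr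
      _ = 1 := by rw [← mul_pow]; norm_num
  calc (m : ℝ) * β ^ T ≤ m * β ^ (e + m) := mul_le_mul_of_nonneg_left (h.anti hT) m.cast_nonneg
    _ = (m * β ^ m) * β ^ e := by rw [zpow_add₀ h0.ne', zpow_natCast]; ring
    _ < 1 * β ^ e := by gcongr
    _ = _ := one_mul _

/-- `x` is a sum of at most `μ` terms `± β ^ n` with `n ∈ Z`. -/
inductive Rep (β : ℝ) (Z : Set ℤ) : ℕ → ℝ → Prop
  | zero (μ : ℕ) : Rep β Z μ 0
  | step {μ : ℕ} {x : ℝ} (n ε : ℤ) : n ∈ Z → |ε| ≤ 1 → Rep β Z μ x →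
      Rep β Z (μ + 1) (x + ε * β ^ n)

namespace Rep

variable {β : ℝ} {Z Z' W : Set ℤ} {μ ν : ℕ} {x y : ℝ}

theorem mono (h : Rep β Z μ x) (hZ : Z ⊆ Z') : ∀ {ν : ℕ}, μ ≤ ν → Rep β Z' ν x := by
  induction h with
  | zero μ => exact fun _ => .zero _
  | step n ε hn hε _ ih =>
    intro ν hν
    obtain ⟨k, rfl⟩ : ∃ k, ν = k + 1 := ⟨ν - 1, by omega⟩
    exact .step n ε (hZ hn) hε (ih (by omega))

theorem cast (h : Rep β Z μ x) (hx : x = y) : Rep β Z μ y := hx ▸ h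

theorem add (hx : Rep β Z μ x) (hy : Rep β Z ν y) : Rep β Z (μ + ν) (x + y) := by
  induction hy with
  | zero ν => simpa using hx.mono subset_rfl (Nat.le_add_right _ _)
  | step n ε hn hε _ ih => exact (Rep.step n ε hn hε ih).cast (add_assoc _ _ _)

theorem term_mul (hβ : β ≠ 0) (hx : Rep β Z μ x) {n ε : ℤ} (hε : |ε| ≤ 1)
    (hW : ∀ z ∈ Z, z + n ∈ W) : Rep β W μ (x * (ε * β ^ n)) := by
  induction hx with
  | zero μ => simpa using .zero _
  | step n' ε' hn' hε' _ ih =>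
    refine (Rep.step (n' + n) (ε' * ε) (hW _ hn') ?_ ih).cast ?_
    · rw [abs_mul]
      exact mul_le_one₀ hε' (abs_nonneg _) hε
    · rw [zpow_add₀ hβ]
      push_cast
      ring

theorem mul (hβ : β ≠ 0) (hx : Rep β Z μ x) (hy : Rep β Z' ν y)
    (hW : ∀ z ∈ Z, ∀ z' ∈ Z', z + z' ∈ W) : Rep β W (μ * ν) (x * y) := by
  induction hy with
  | zero ν => simpa using .zero _
  | step n ε hn hε _ ih =>
    exact (ih.add (hx.term_mul hβ hε fun z hz => hW z hz n hn)).cast (mul_add _ _ _).symm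

theorem int_mul_pow {n : ℤ} (hn : n ∈ Z) (k : ℤ) (hk : k.natAbs ≤ μ) : Rep β Z μ (k * β ^ n) := by
  have h : ∀ (ε : ℤ), |ε| ≤ 1 → ∀ m : ℕ, Rep β Z m (m * (ε * β ^ n)) := fun ε hε m => by
    induction m with
    | zero => simpa using .zero _
    | succ m ih => exact (Rep.step n ε hn hε ih).cast (by push_cast; ring)
  refine ((h k.sign ?_ k.natAbs).mono subset_rfl hk).cast ?_
  · rcases Int.sign_trichotomy k with h | h | h <;> simp [h]
  · have : (k : ℝ) = ((k.sign * k.natAbs : ℤ) : ℝ) := by rw [Int.sign_mul_natAbs]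
    conv_rhs => rw [this]
    rw [Int.cast_mul, Int.cast_natCast]
    ring

theorem nat_mul (hβ : β ≠ 0) (k : ℕ) (hx : Rep β Z μ x) : Rep β Z (k * μ) (k * x) := by
  have h : Rep β {0} k (((k : ℤ) : ℝ) * β ^ (0 : ℤ)) := 
    int_mul_pow (Set.mem_singleton _) k (by simp)
  refine (h.mul hβ hx fun z hz z' hz' => ?_).cast (by simp)
  rw [Set.mem_singleton_iff.1 hz, zero_add]
  exact hz'

theorem one (h0 : 0 ∈ Z) : Rep β Z 1 1 := (int_mul_pow h0 1 le_rfl).cast (by simp)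

theorem sum {ι : Type} (s : Finset ι) {f : ι → ℝ} (h : ∀ i ∈ s, Rep β Z μ (f i)) :
    Rep β Z (s.card * μ) (∑ i ∈ s, f i) := by
  classical
  induction s using Finset.induction_on with
  | empty => simpa using .zero _
  | insert a s ha ih =>
    rw [sum_insert ha, card_insert_of_notMem ha, add_mul, one_mul, add_comm (s.card * μ)]
    exact (h a (mem_insert_self _ _)).add (ih fun i hi => h i (mem_insert_of_mem hi))

theorem split (hx : Rep β Z μ x) {Z₁ Z₂ : Set ℤ} (h : ∀ z ∈ Z, z ∈ Z₁ ∨ z ∈ Z₂) :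
    ∃ y z, x = y + z ∧ Rep β Z₁ μ y ∧ Rep β Z₂ μ z := by
  induction hx with
  | zero μ => exact ⟨0, 0, by simp, .zero _, .zero _⟩
  | step n ε hn hε _ ih =>
    obtain ⟨y, z, rfl, h1, h2⟩ := ih
    rcases h n hn with h | h
    · exact ⟨y + ε * β ^ n, z, by ring, .step n ε h hε h1, h2.mono subset_rfl (by omega)⟩
    · exact ⟨y, z + ε * β ^ n, by ring, h1.mono subset_rfl (by omega), .step n ε h hε h2⟩

theorem finite (hx : Rep β Z μ x) :
    ∃ F : Finset ℤ, (F : Set ℤ) ⊆ Z ∧ F.card ≤ μ ∧ Rep β F μ x := by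
  induction hx with
  | zero μ => exact ⟨∅, by simp, by simp, .zero _⟩
  | step n ε hn hε _ ih =>
    obtain ⟨F, h1, h2, h3⟩ := ih
    refine ⟨insert n F, ?_, (card_insert_le _ _).trans (by omega),
      .step n ε (by simp) hε (h3.mono (by simp) le_rfl)⟩
    rw [coe_insert]
    exact Set.insert_subset hn h1

theorem abs_le (hβ : Base β) (hx : Rep β Z μ x) {e : ℤ} (h : ∀ z ∈ Z, e ≤ z) :
    |x| ≤ μ * β ^ e := by
  have h0 := hβ.pos
  induction hx with
  | zero μ => simp only [abs_zero]; positivity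
  | step n ε hn hε _ ih =>
    refine (abs_add_le _ _).trans ?_
    have h1 : |(ε : ℝ) * β ^ n| ≤ 1 * β ^ e := by
      rw [abs_mul, abs_of_pos (zpow_pos h0 n)]
      exact mul_le_mul (by exact_mod_cast hε) (hβ.anti (h n hn)) (zpow_pos h0 n).le zero_le_one
    push_cast
    linarith

theorem int (hβ : Base β) (hx : Rep β Z μ x) {e : ℤ} (h : ∀ z ∈ Z, z ≤ e) :
    ∃ k : ℤ, x = k * β ^ e := by
  induction hx with
  | zero μ => exact ⟨0, by simp⟩
  | step n ε hn hε _ ih =>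
    obtain ⟨k, rfl⟩ := ih
    obtain ⟨l, hl⟩ := hβ.int (h n hn)
    exact ⟨k + ε * l, by rw [hl]; push_cast; ring⟩

theorem le_abs (hβ : Base β) (hx : Rep β Z μ x) {e : ℤ} (h : ∀ z ∈ Z, z ≤ e) (h0 : x ≠ 0) :
    β ^ e ≤ |x| := by
  obtain ⟨k, rfl⟩ := hx.int hβ h
  have hk : k ≠ 0 := by rintro rfl; simp at h0
  have h1 : (1 : ℝ) ≤ |(k : ℝ)| := by exact_mod_cast Int.one_le_abs hk
  have h2 := zpow_pos hβ.pos e
  rw [abs_mul, abs_of_pos h2]
  exact le_mul_of_one_le_left h2.le h1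

theorem gap (hβ : Base β) (hx : Rep β Z μ x) (hy : Rep β Z' ν y) {e e' T : ℤ} {K : ℕ}
    (h1 : ∀ z ∈ Z, z ≤ e) (h2 : ∀ z ∈ Z', e' ≤ z) (h3 : |x + y| ≤ K * β ^ T) (h4 : e' ≤ T)
    (h5 : e + (ν + K : ℕ) ≤ e') : x = 0 := by
  by_contra h0
  have a1 := hx.le_abs hβ h1 h0
  have a2 := hy.abs_le hβ h2
  have a3 := hβ.lt h5
  have a4 : (K : ℝ) * β ^ T ≤ K * β ^ e' := mul_le_mul_of_nonneg_left (hβ.anti h4) K.cast_nonneg
  have a5 : |x| ≤ |x + y| + |y| := by simpa using abs_sub (x + y) y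
  push_cast at a3
  linarith

theorem pow (hβ : β ≠ 0) (hx : Rep β Z μ x) (W : ℕ → Set ℤ) (h0 : 0 ∈ W 0)
    (hW : ∀ k, ∀ w ∈ W k, ∀ z ∈ Z, w + z ∈ W (k + 1)) (k : ℕ) : Rep β (W k) (μ ^ k) (x ^ k) := by
  induction k with
  | zero => simpa using one h0
  | succ k ih => rw [pow_succ, pow_succ]; exact ih.mul hβ hx (hW k)

theorem eq_zero (hx : Rep β ∅ μ x) : x = 0 := by
  cases hx with
  | zero => rfl
  | step n ε hn => exact absurd hn (Set.notMem_empty _)

end Rep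

theorem exists_gap (g : ℕ) (V : Finset ℤ) : ∀ s : ℤ, ∃ e, s ≤ e ∧ e ≤ s + V.card * g ∧
    ∀ v ∈ V, v < e ∨ e + g ≤ v := by
  induction V using Finset.strongInductionOn with
  | _ V ih =>
    intro s
    by_cases h : ∀ v ∈ V, v < s ∨ s + g ≤ v
    · exact ⟨s, le_rfl, le_add_of_nonneg_right (by positivity), h⟩
    · push Not at h
      obtain ⟨v, hv, h1, h2⟩ := h
      obtain ⟨e, a1, a2, a3⟩ := ih (V.erase v) (erase_ssubset hv) (s + g)
      refine ⟨e, by omega, ?_, fun w hw => ?_⟩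
      · have := card_erase_add_one hv
        rw [← this]
        push_cast
        linarith
      · by_cases hwv : w = v
        · omega
        · exact a3 w (mem_erase.2 ⟨hwv, hw⟩)

/-- Normalisation: a family of sparse numbers, not all zero, has a common first position at which
one of them is visibly large. -/
theorem normalise {β : ℝ} (hβ : Base β) {μ B : ℕ} (x : ℕ → ℝ) (hx : ∃ i, x i ≠ 0) (Z : Finset ℤ) :
    Z.card * (2 * μ) + 2 ≤ B → (∀ i, Rep β Z μ (x i)) →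
    ∃ ν ∈ Z, (∀ i, Rep β {z | z ∈ Z ∧ ν ≤ z} μ (x i)) ∧ ∃ i, β ^ (ν + B) ≤ |x i| := by
  induction Z using Finset.strongInductionOn with
  | _ Z ih =>
    intro hB h
    have hne : Z.Nonempty := by
      rw [nonempty_iff_ne_empty]
      rintro rfl
      obtain ⟨i, hi⟩ := hx
      exact hi (by simpa using (h i).mono (Z' := ∅) (by simp) le_rfl |>.eq_zero)
    obtain ⟨ν, hν, hmin⟩ := Z.exists_min_image id hne
    obtain ⟨e, a1, a2, a3⟩ := exists_gap (2 * μ) Z (ν + 1)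
    have hsp := fun i => (h i).split (Z₁ := Set.Iic e)
      (Z₂ := (Z.filter (e + (2 * μ : ℕ) ≤ ·) : Finset ℤ)) fun z hz => by
        rcases a3 z hz with h | h
        · exact .inl h.le
        · exact .inr (by simpa using ⟨hz, by simpa using h⟩)
    choose lo hi h1 h2 h3 using hsp
    by_cases h0 : ∀ i, lo i = 0
    · have hss : Z.filter (e + (2 * μ : ℕ) ≤ ·) ⊂ Z := filter_ssubset.2 ⟨ν, hν, by omega⟩
      obtain ⟨ν', b1, b2, b3⟩ := ih _ hss
        (le_trans (by have := card_le_card hss.subset; gcongr) hB) fun i => (h3 i).cast (by simp [h1 i, h0 i])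
      refine ⟨ν', hss.subset b1, fun i => (b2 i).mono (fun z hz => ?_) le_rfl, b3⟩
      exact ⟨hss.subset hz.1, hz.2⟩
    · push Not at h0
      obtain ⟨i, h0⟩ := h0
      refine ⟨ν, hν, fun i => (h i).mono (fun z hz => And.intro hz (hmin z hz)) le_rfl, i, ?_⟩
      have b1 := (h2 i).le_abs hβ (fun z hz => hz) h0
      have b2 := (h3 i).abs_le hβ (e := e + (2 * μ : ℕ)) fun z hz => (mem_filter.1 hz).2
      have b3 := hβ.lt (m := 2 * μ) (e := e) le_rfl
      have b4 : β ^ (ν + B) ≤ β ^ (e + 1) := hβ.anti (by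
        have : ((Z.card * (2 * μ) + 2 : ℕ) : ℤ) ≤ B := by exact_mod_cast hB
        push_cast at this a2
        linarith)
      have b5 : β ^ (e + 1) ≤ β ^ e * (1 / 2) := by
        rw [zpow_add_one₀ hβ.pos.ne']
        have := zpow_pos hβ.pos e
        gcongr
        exact hβ.le_half
      have b6 : |lo i| ≤ |x i| + |hi i| := by
        have := abs_sub (x i) (hi i)
        rwa [show x i - hi i = lo i by rw [h1 i]; ring] at this
      push_cast at b2 b3
      linarith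

end Pool.Agent.P.MP_c8ecb2_nt.H14
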