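import Pool.Agent.P.MP_c8ecb2_nt.H14.Poly

set_option autoImplicit false

namespace Pool.Agent.P.MP_c8ecb2_nt.H14

open Finset Polynomial

variable {β θ : ℝ} {c : ℕ → ℤ} {A D T₁ : ℕ}

theorem trunc (h : Dat β θ c A D T₁) {U : Finset ℤ} {r d L K T₀ T : ℕ} {Q : ℝ[X]}
    (hQ : St β θ U r d L T Q) (hfree : ∀ z ∈ Lat U r, z < T₀ ∨ (T : ℤ) ≤ z)
    (hK : L + (d + 1) * L * (2 * A) ^ d + (d + 1) * L * d * (2 * A) ^ d * A ≤ K)
    (hT : L + (L + K) ≤ T) :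
    ∃ P : ℝ[X], P.natDegree ≤ d ∧ 1 ≤ P.natDegree ∧
      (∀ i, Rep β {z | z ∈ Lat U r ∧ 0 ≤ z ∧ z ≤ T₀} L (P.coeff i)) ∧
      |P.eval (ps β c T)| ≤ K * β ^ (T : ℤ) := by
  have hβ := h.base
  obtain ⟨r1, r2, r3⟩ := h.abs_le
  have hp := zpow_pos hβ.pos (T : ℤ)
  have hsp := fun i => (hQ.rep i).split (Z₁ := {z | z ∈ Lat U r ∧ 0 ≤ z ∧ z ≤ T₀})
    (Z₂ := Set.Ici (T : ℤ)) fun z hz => by
      rcases hfree z hz.1 with h | h
      exacts [.inl ⟨hz.1, hz.2, h.le⟩, .inr h]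
  choose lo hi h1 h2 h3 using hsp
  obtain ⟨P, hP1, hP2⟩ := exists_poly d lo
  have a1 : ∀ i, Rep β {z | z ∈ Lat U r ∧ 0 ≤ z ∧ z ≤ T₀} L (P.coeff i) := fun i => by
    by_cases hi : i ≤ d
    · rw [hP2 i hi]
      exact h2 i
    · rw [coeff_eq_zero_of_natDegree_lt (by omega)]
      exact .zero _
  have a2 : ∀ i, |P.coeff i| ≤ L := fun i => by
    simpa using (a1 i).abs_le hβ (e := 0) fun z hz => hz.2.1
  have a3 : (Q - P).natDegree ≤ d := (natDegree_sub_le _ _).trans (max_le hQ.deg hP1)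
  have a4 : ∀ i, |(Q - P).coeff i| ≤ L * β ^ (T : ℤ) := fun i => by
    by_cases hi : i ≤ d
    · rw [coeff_sub, hP2 i hi, h1 i, add_sub_cancel_left]
      exact (h3 i).abs_le hβ fun z hz => hz
    · rw [coeff_eq_zero_of_natDegree_lt (by omega), abs_zero]
      positivity
  have a5 := eval_abs_le a3 a4 r1 r2
  have a6 := eval_lip hP1 a2 r1 r2 (r3 T)
  have a7 : |P.eval (ps β c T)| ≤ K * β ^ (T : ℤ) := by
    have b1 : ((d : ℝ) + 1) * L * d * (2 * A) ^ d * |θ - ps β c T| ≤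
        ((d : ℝ) + 1) * L * d * (2 * A) ^ d * (A * β ^ (T : ℤ)) := by gcongr; exact h.app T
    have b2 : ((L + (d + 1) * L * (2 * A) ^ d + (d + 1) * L * d * (2 * A) ^ d * A : ℕ) : ℝ) *
        β ^ (T : ℤ) ≤ K * β ^ (T : ℤ) := by gcongr
    have b3 := hQ.small
    rw [eval_sub] at a5
    have b4 : P.eval (ps β c T) =
        Q.eval θ - (Q.eval θ - P.eval θ) - (P.eval θ - P.eval (ps β c T)) := by ring
    have b5 := abs_sub (Q.eval θ - (Q.eval θ - P.eval θ)) (P.eval θ - P.eval (ps β c T))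
    have b6 := abs_sub (Q.eval θ) (Q.eval θ - P.eval θ)
    rw [← b4] at b5
    push_cast at b2
    linarith
  refine ⟨P, hP1, ?_, a1, a7⟩
  by_contra h0
  obtain ⟨i, hi⟩ := hQ.big
  have b1 : |P.coeff i| ≤ K * β ^ (T : ℤ) := by
    rcases Nat.eq_zero_or_pos i with rfl | hi
    · rwa [eq_C_of_natDegree_eq_zero (p := P) (by omega), eval_C] at a7
    · rw [coeff_eq_zero_of_natDegree_lt (by omega), abs_zero]
      positivity
  have b2 := abs_add_le (P.coeff i) ((Q - P).coeff i)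
  rw [coeff_sub, add_sub_cancel, ← coeff_sub] at b2
  have b3 := hβ.lt (m := L + K) (e := L) (T := T) (by exact_mod_cast hT)
  have b4 := a4 i
  push_cast at b3
  linarith

theorem decomp (h : Dat β θ c A D T₁) {d L T₀ T g : ℕ} (hW : (Wn c T₀ T).card ≤ L) (hL : 1 ≤ L)
    (h1 : T₁ ≤ T₀) (h2 : T₀ ≤ g) (hT : (D + 1) * (L + (d + 1) * (L * A) ^ d + 2) * g ≤ T) :
    ∃ (e₀ e₁ : ℕ) (a f b : ℕ → ℝ), e₀ + g ≤ e₁ ∧ e₁ + g ≤ T ∧ f 0 = 0 ∧ f 1 ≠ 0 ∧
      ∀ r ≤ d, (ps β c T - ps β c T₀) ^ r = a r + f r + b r ∧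
        Rep β (Set.Iic e₀) ((L * A) ^ d) (a r) ∧
        Rep β {z | z ∈ Lat (Wn c T₀ T) d ∧ (e₀ : ℤ) + g ≤ z ∧ z ≤ e₁} ((L * A) ^ d) (f r) ∧
        Rep β (Set.Ici ((e₁ : ℤ) + g)) ((L * A) ^ d) (b r) := by
  have hβ := h.base
  have hD := h.one_le'
  have hm : 1 ≤ L * A := Nat.mul_pos hL h.one_le
  set v := L + (d + 1) * (L * A) ^ d with hv
  have hT0 : T₀ ≤ T := h2.trans (le_trans (Nat.le_mul_of_pos_left _ (by positivity)) hT)
  have hu := fun r => ((ps_rep (β := β) h.dig hT0 hW).pow hβ.pos.ne' (Lat (Wn c T₀ T))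
    (Lat.zero _ _) (fun k w hw z hz => Lat.add hw (Lat.of_mem hz)) r).finite
  choose F hF1 hF2 hF3 using hu
  set V := Wn c T₀ T ∪ (range (d + 1)).biUnion F with hV
  have hVc : V.card ≤ v := by
    refine (card_union_le _ _).trans (add_le_add hW (card_biUnion_le.trans ?_))
    refine (sum_le_card_nsmul _ _ ((L * A) ^ d) fun r hr => (hF2 r).trans ?_).trans (by simp)
    exact Nat.pow_le_pow_right hm (Nat.lt_succ_iff.1 (mem_range.1 hr))
  obtain ⟨e₀, a1, a2, a3⟩ := exists_gap g V T₀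
  lift e₀ to ℕ using by omega
  obtain ⟨e₁, b1, b2, b3⟩ := exists_gap g V (D * (e₀ + g) : ℕ)
  lift e₁ to ℕ using by omega
  have a1' : T₀ ≤ e₀ := by exact_mod_cast a1
  have a2' : e₀ ≤ T₀ + V.card * g := by exact_mod_cast a2
  have b1' : D * (e₀ + g) ≤ e₁ := by exact_mod_cast b1
  have b2' : e₁ ≤ D * (e₀ + g) + V.card * g := by exact_mod_cast b2
  have c1 : e₀ + g ≤ e₁ := (Nat.le_mul_of_pos_left _ hD).trans b1'
  have c2 : e₁ + g ≤ T := by
    have x1 : V.card * g ≤ v * g := by gcongr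
    have x2 : D * (e₀ + g) ≤ D * ((v + 2) * g) := Nat.mul_le_mul_left _ (by linarith)
    linarith
  have key : ∀ r, ∃ a f b : ℝ, (r = 0 → f = 0) ∧ (r = 1 → f ≠ 0) ∧ (r ≤ d →
      (ps β c T - ps β c T₀) ^ r = a + f + b ∧ Rep β (Set.Iic e₀) ((L * A) ^ d) a ∧
        Rep β {z | z ∈ Lat (Wn c T₀ T) d ∧ (e₀ : ℤ) + g ≤ z ∧ z ≤ e₁} ((L * A) ^ d) f ∧
        Rep β (Set.Ici ((e₁ : ℤ) + g)) ((L * A) ^ d) b) := fun r => by
    rcases r with _ | _ | r
    · refine ⟨1, 0, 0, fun _ => rfl, by omega, fun _ => ⟨by simp, ?_, .zero _, .zero _⟩⟩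
      exact (Rep.one (Z := Set.Iic e₀) (by simp)).mono subset_rfl (Nat.one_le_pow _ _ hm)
    · refine ⟨ps β c (e₀ + g) - ps β c T₀, ps β c e₁ - ps β c (e₀ + g), ps β c T - ps β c e₁,
        by omega, fun _ => sub_ne_zero.2 (h.lio _ _ (by omega) b1'), fun hd => ?_⟩
      have x : ∀ {S S' : ℕ} {Z : Set ℤ}, T₀ ≤ S → S ≤ S' → S' ≤ T →
          (∀ z ∈ Wn c T₀ T, z ∈ V → (S : ℤ) ≤ z → z < S' → z ∈ Z) →
          Rep β Z ((L * A) ^ d) (ps β c S' - ps β c S) := fun x1 x2 x3 x4 =>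
        (ps_rep h.dig x2 ((card_le_card (Wn_mono x1 x3)).trans hW)).mono
          (fun z hz => x4 z (Wn_mono x1 x3 hz) (mem_union_left _ (Wn_mono x1 x3 hz))
            (Wn_bd hz).1 (Wn_bd hz).2) (Nat.le_self_pow (by omega) _)
      refine ⟨by ring, x le_rfl (by omega) (by omega) fun z _ hz x1 x2 => ?_,
        x (by omega) c1 (by omega) fun z hz _ x1 x2 => ?_,
        x (by omega) (by omega) le_rfl fun z _ hz x1 x2 => ?_⟩
      · have := a3 z hz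
        exact Set.mem_Iic.2 (by omega)
      · exact ⟨Lat.mono subset_rfl hd (Lat.of_mem hz), by omega, by omega⟩
      · have := b3 z hz
        exact Set.mem_Ici.2 (by omega)
    · by_cases hd : r + 1 + 1 ≤ d
      swap
      · exact ⟨0, 0, 0, by omega, by omega, fun h => absurd h hd⟩
      have x1 : ∀ z ∈ F (r + 1 + 1), z ∈ V := fun z hz =>
        mem_union_right _ (mem_biUnion.2 ⟨_, mem_range.2 (by omega), hz⟩)
      obtain ⟨a, y, y1, y2, y3⟩ := ((hF3 (r + 1 + 1)).mono subset_rfl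
        (Nat.pow_le_pow_right hm hd)).split (Z₁ := Set.Iic e₀)
        (Z₂ := {z | z ∈ F (r + 1 + 1) ∧ (e₀ : ℤ) + g ≤ z}) fun z hz => by
          rcases a3 z (x1 z hz) with h | h
          exacts [.inl h.le, .inr ⟨hz, h⟩]
      obtain ⟨f, b, rfl, y4, y5⟩ := y3.split
        (Z₁ := {z | z ∈ Lat (Wn c T₀ T) d ∧ (e₀ : ℤ) + g ≤ z ∧ z ≤ e₁})
        (Z₂ := Set.Ici ((e₁ : ℤ) + g)) fun z hz => by
          rcases b3 z (x1 z hz.1) with h | h
          exacts [.inl ⟨Lat.mono subset_rfl hd (hF1 _ hz.1), hz.2, h.le⟩, .inr h]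
      exact ⟨a, f, b, by omega, by omega, fun _ => ⟨by rw [y1, add_assoc], y2, y4, y5⟩⟩
  choose a f b k1 k2 k3 using key
  exact ⟨e₀, e₁, a, f, b, c1, c2, k1 0 rfl, k2 1 rfl, k3⟩

theorem descend (h : Dat β θ c A D T₁) {U U' : Finset ℤ} {r d L K T₀ T : ℕ} {P : ℝ[X]}
    (hd : P.natDegree ≤ d + 1) (hd' : 1 ≤ P.natDegree)
    (hP : ∀ i, Rep β {z | z ∈ Lat U r ∧ 0 ≤ z ∧ z ≤ T₀} L (P.coeff i))
    (hs : |P.eval (ps β c T)| ≤ K * β ^ (T : ℤ)) (hW : (Wn c 0 T).card ≤ L) (hL : 1 ≤ L)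
    (hU : U ⊆ U') (hU' : Wn c T₀ T ⊆ U') (h1 : T₁ ≤ T₀)
    (h2 : 2 * ((d + 2) * ((d + 2) * (2 ^ (d + 1) * L * (L * A) ^ (d + 1)) * (L * A) ^ (d + 1))) + K
      ≤ T₀)
    (hT : (D + 1) * (L + (d + 2) * (L * A) ^ (d + 1) + 2) * ((d + 3) * T₀) ≤ T) :
    ∃ P₁ : ℝ[X], P₁.natDegree ≤ d ∧ P₁ ≠ 0 ∧ P₁.eval (ps β c T₀) = 0 ∧
      ∀ i, Rep β (Lat U' (d + 1 + r)) ((d + 2) * ((L * A) ^ (d + 1) * (2 ^ (d + 1) * L)))
        (P₁.coeff i) := by
  have hβ := h.base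
  have hβ0 := hβ.pos.ne'
  have hm : 1 ≤ L * A := Nat.mul_pos hL h.one_le
  have hg : T₀ ≤ (d + 3) * T₀ := Nat.le_mul_of_pos_left _ (by positivity)
  have hT0 : T₀ ≤ T := hg.trans (le_trans (Nat.le_mul_of_pos_left _ (by positivity)) hT)
  obtain ⟨e₀, e₁, a, f, b, c1, c2, f0, f1, hr⟩ := decomp h (d := d + 1)
    ((card_le_card (Wn_mono (Nat.zero_le T₀) le_rfl)).trans hW) hL h1 hg hT
  have hy : Rep β (Set.Icc 0 T₀) (L * A) (ps β c T₀) :=
    ((ps_rep (β := β) h.dig (Nat.zero_le T₀)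
      ((card_le_card (Wn_mono le_rfl hT0)).trans hW)).mono
      (fun z hz => Set.mem_Icc.2 ⟨by simpa using (Wn_bd hz).1, (Wn_bd hz).2.le⟩) le_rfl).cast
      (by simp [ps])
  set t : ℕ → ℝ := fun k => (hasseDeriv k P).eval (ps β c T₀) with ht
  have ht' : ∀ k, Rep β (Set.Icc 0 ((d + 2) * T₀))
      ((d + 2) * (2 ^ (d + 1) * L * (L * A) ^ (d + 1))) (t k) := fun k => by
    have := Rep.eval hβ0 (d := d + 1) (T := T₀)
      ((natDegree_hasseDeriv_le P k).trans (by omega))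
      (Rep.hasse hβ0 hd (fun i => (hP i).mono (fun z hz => hz.2) le_rfl) k) hy hm (by omega)
    refine this.mono (fun z hz => Set.mem_Icc.2 ⟨hz.1, hz.2.trans (le_of_eq ?_)⟩) le_rfl
    push_cast
    ring
  set m := (d + 2) * ((d + 2) * (2 ^ (d + 1) * L * (L * A) ^ (d + 1)) * (L * A) ^ (d + 1)) with hm'
  have hsum : ∀ {x : ℕ → ℝ} {Z W : Set ℤ}, (∀ k ≤ d + 1, Rep β Z ((L * A) ^ (d + 1)) (x k)) →
      (∀ w : ℤ, 0 ≤ w → w ≤ (d + 2) * T₀ → ∀ z ∈ Z, w + z ∈ W) →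
      Rep β W m (∑ k ∈ range (d + 2), t k * x k) := fun x1 x2 => by
    simpa using Rep.sum (range (d + 2)) fun k hk => (ht' k).mul hβ0
      (x1 k (Nat.lt_succ_iff.1 (mem_range.1 hk))) fun w hw => x2 w hw.1 hw.2
  have X1 := hsum (W := Set.Iic ((e₀ : ℤ) + (d + 2) * T₀)) (fun k hk => (hr k hk).2.1)
    fun w _ x2 z hz => Set.mem_Iic.2 (by linarith [Set.mem_Iic.1 hz])
  have X2 := hsum (W := Set.Icc ((e₀ : ℤ) + ((d + 3) * T₀ : ℕ)) (e₁ + (d + 2) * T₀))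
    (fun k hk => (hr k hk).2.2.1) fun w x1 x2 z hz => ⟨by linarith [hz.2.1], by linarith [hz.2.2]⟩
  have X3 := hsum (W := Set.Ici ((e₁ : ℤ) + ((d + 3) * T₀ : ℕ))) (fun k hk => (hr k hk).2.2.2)
    fun w x1 x2 z hz => Set.mem_Ici.2 (by linarith [Set.mem_Ici.1 hz])
  have hE : P.eval (ps β c T) = ∑ k ∈ range (d + 2), t k * a k +
      (∑ k ∈ range (d + 2), t k * f k + ∑ k ∈ range (d + 2), t k * b k) := by
    rw [← add_sub_cancel (ps β c T₀) (ps β c T), eval_add_eq hd, ← sum_add_distrib,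
      ← sum_add_distrib]
    refine sum_congr rfl fun k hk => ?_
    rw [(hr k (Nat.lt_succ_iff.1 (mem_range.1 hk))).1]
    ring
  rw [hE] at hs
  have c1' : (e₀ : ℤ) + ((d + 3) * T₀ : ℕ) ≤ e₁ := by exact_mod_cast c1
  have c2' : (e₁ : ℤ) + ((d + 3) * T₀ : ℕ) ≤ T := by exact_mod_cast c2
  have h2' : ((m + m + K : ℕ) : ℤ) ≤ T₀ := by exact_mod_cast (by omega : m + m + K ≤ T₀)
  have G1 := X1.gap hβ ((X2.mono (Z' := Set.Ici ((e₀ : ℤ) + ((d + 3) * T₀ : ℕ)))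
    (fun z hz => hz.1) le_rfl).add (X3.mono (fun z hz => Set.mem_Ici.2 (by
      have := Set.mem_Ici.1 hz
      omega)) le_rfl)) (fun z hz => hz) (fun z hz => hz) hs (by omega) (by
      push_cast at h2' ⊢
      linarith)
  rw [G1, zero_add] at hs
  have G2 := X2.gap hβ X3 (fun z hz => hz.2) (fun z hz => hz) hs c2' (by
    push_cast at h2' ⊢
    linarith [Int.natCast_nonneg m])
  have hc : ∀ i, (∑ k ∈ range (d + 2), C (f k) * hasseDeriv k P).coeff i =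
      ∑ k ∈ range (d + 2), f k * (hasseDeriv k P).coeff i := fun i => by
    simp only [finsetSum_coeff, coeff_C_mul]
  refine ⟨∑ k ∈ range (d + 2), C (f k) * hasseDeriv k P, ?_, fun h0 => ?_, ?_, fun i => ?_⟩
  · refine natDegree_sum_le_of_forall_le _ _ fun k _ => ?_
    rcases Nat.eq_zero_or_pos k with rfl | hk
    · simp [f0]
    · exact (natDegree_C_mul_le _ _).trans ((natDegree_hasseDeriv_le P k).trans (by omega))
  · have x1 := hc (P.natDegree - 1)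
    rw [h0, coeff_zero, sum_eq_single 1, hasseDeriv_coeff, Nat.sub_add_cancel hd',
      Nat.choose_one_right] at x1
    · have x2 : P ≠ 0 := by rintro rfl; simp at hd'
      exact mul_ne_zero f1 (mul_ne_zero (Nat.cast_ne_zero.2 (by omega))
        (leadingCoeff_ne_zero.2 x2)) x1.symm
    · intro k _ hk
      rcases Nat.eq_zero_or_pos k with rfl | hk'
      · simp [f0]
      · rw [hasseDeriv_coeff, coeff_eq_zero_of_natDegree_lt (by omega), mul_zero, mul_zero]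
    · simp
  · rw [← G2, eval_finsetSum]
    exact sum_congr rfl fun k _ => by rw [eval_mul, eval_C, mul_comm]
  · rw [hc]
    simpa using Rep.sum (range (d + 2)) fun k hk =>
      (hr k (Nat.lt_succ_iff.1 (mem_range.1 hk))).2.2.1.mul hβ0 (Rep.hasse hβ0 hd hP k i)
        (W := Lat U' (d + 1 + r)) fun z hz w hw =>
          Lat.add (Lat.mono hU' le_rfl hz.1) (Lat.mono hU le_rfl hw.1)

theorem renorm (h : Dat β θ c A D T₁) {U : Finset ℤ} (hU : ∀ x ∈ U, -x ∈ U) {r d m L T₀ : ℕ}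
    {P : ℝ[X]} (hd : P.natDegree ≤ d) (h0 : P ≠ 0) (hy : P.eval (ps β c T₀) = 0)
    (hP : ∀ i, Rep β (Lat U r) m (P.coeff i))
    (hL : m + ((d + 1) * m * (2 * m) + 2) + (d + 1) * m * d * (2 * A) ^ d * A ≤ L) :
    ∃ Q, St β θ U (r + r) d L T₀ Q := by
  have hβ := h.base
  have hβ0 := hβ.pos.ne'
  obtain ⟨r1, r2, r3⟩ := h.abs_le
  choose F hF1 hF2 hF3 using fun i => (hP i).finite
  have hZ : ((range (d + 1)).biUnion F).card ≤ (d + 1) * m :=
    card_biUnion_le.trans ((sum_le_card_nsmul _ _ m fun i _ => hF2 i).trans (by simp))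
  have hZ' : ∀ z ∈ (range (d + 1)).biUnion F, z ∈ Lat U r := fun z hz => by
    obtain ⟨i, -, hi⟩ := mem_biUnion.1 hz
    exact hF1 i hi
  obtain ⟨ν, a1, a2, i, a3⟩ := normalise hβ (μ := m) (B := L) P.coeff
    ⟨_, leadingCoeff_ne_zero.2 h0⟩ ((range (d + 1)).biUnion F)
    (le_trans (by gcongr) (by omega : (d + 1) * m * (2 * m) + 2 ≤ L)) fun i => by
      by_cases hi : i ≤ d
      · refine (hF3 i).mono (fun z hz => ?_) le_rfl
        exact mem_coe.2 (mem_biUnion.2 ⟨i, mem_range.2 (by omega), hz⟩)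
      · rw [coeff_eq_zero_of_natDegree_lt (by omega)]
        exact .zero _
  have b1 : ∀ i, Rep β {z | z ∈ Lat U (r + r) ∧ 0 ≤ z} m ((P * C (β ^ (-ν))).coeff i) :=
    fun i => ((a2 i).term_mul hβ0 (n := -ν) (ε := 1) (by simp) fun z hz => And.intro
      (Lat.add (hZ' z hz.1) (Lat.neg hU (hZ' ν a1))) (by linarith [hz.2])).cast (by simp)
  have b2 : (P * C (β ^ (-ν))).natDegree ≤ d := (natDegree_mul_C_le _ _).trans hd
  refine ⟨P * C (β ^ (-ν)), b2, fun i => (b1 i).mono subset_rfl (by omega), ⟨i, ?_⟩, ?_⟩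
  · have hp := zpow_pos hβ.pos (-ν)
    rw [coeff_mul_C, abs_mul, abs_of_pos hp]
    refine le_trans (le_of_eq ?_) (mul_le_mul_of_nonneg_right a3 hp.le)
    rw [← zpow_add₀ hβ0]
    congr 1
    ring
  · have b3 := eval_lip b2 (κ := m) (fun i => by
      simpa using (b1 i).abs_le hβ (e := 0) fun z hz => hz.2) r1 r2 (r3 T₀)
    rw [eval_mul (x := ps β c T₀), hy, zero_mul, sub_zero] at b3
    have hp := zpow_pos hβ.pos (T₀ : ℤ)
    have b4 : (((d + 1) * m * d * (2 * A) ^ d * A : ℕ) : ℝ) ≤ L := by exact_mod_cast (by omega)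
    refine b3.trans ((mul_le_mul_of_nonneg_left (h.app T₀) (by positivity)).trans ?_)
    rw [← mul_assoc]
    push_cast at b4
    gcongr

end Pool.Agent.P.MP_c8ecb2_nt.H14
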